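import Pool.Agent.Helper19.RP.Iface

/-!
# MP_795d31_lc, chapter FST: finite Fourier analysis on the circle
-/

set_option autoImplicit false

open Finset

namespace Pool.Agent.Helper28.FST

open Pool.Agent.Helper19.RP

noncomputable section

lemma ch_zero : ch 0 = 1 := by simp [ch]

lemma ch_add (x y : ℝ) : ch (x + y) = ch x * ch y := by
  unfold ch
  rw [← Complex.exp_add]
  congr 1
  push_cast
  ring

lemma norm_ch (x : ℝ) : ‖ch x‖ = 1 := by
  unfold ch
  rw [Complex.norm_exp]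
  simp

lemma ch_ne_zero (x : ℝ) : ch x ≠ 0 := by
  unfold ch
  exact Complex.exp_ne_zero _

lemma conj_ch (x : ℝ) : (starRingEnd ℂ) (ch x) = ch (-x) := by
  unfold ch
  rw [← Complex.exp_conj]
  congr 1
  simp [Complex.conj_ofReal, map_ofNat]

lemma ch_eq_one_iff (x : ℝ) : ch x = 1 ↔ ∃ n : ℤ, x = n := by
  unfold ch
  rw [Complex.exp_eq_one_iff]
  constructor
  · rintro ⟨n, hn⟩
    refine ⟨n, ?_⟩
    have h2 : (2 * Real.pi * Complex.I : ℂ) ≠ 0 := by
      simp [Real.pi_ne_zero]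
    have : (x : ℂ) * (2 * Real.pi * Complex.I) = (n : ℂ) * (2 * Real.pi * Complex.I) := by
      rw [← hn]; ring
    have h3 := mul_right_cancel₀ h2 this
    exact_mod_cast h3
  · rintro ⟨n, hn⟩
    exact ⟨n, by rw [hn]; push_cast; ring⟩

lemma ch_int (n : ℤ) : ch n = 1 := (ch_eq_one_iff _).2 ⟨n, rfl⟩

lemma ch_nat_mul (n : ℕ) (x : ℝ) : ch (n * x) = ch x ^ n := by
  unfold ch
  rw [← Complex.exp_nat_mul]
  congr 1
  push_cast
  ring

lemma norm_ch_sub (x y : ℝ) : ‖ch x - ch y‖ ≤ 2 * Real.pi * |x - y| := by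
  have h1 : ch x - ch y = ch y * (ch (x - y) - 1) := by
    have : ch x = ch y * ch (x - y) := by rw [← ch_add]; congr 1; ring
    rw [this]; ring
  rw [h1, norm_mul, norm_ch, one_mul]
  have h2 : ch (x - y) = Complex.exp (Complex.I * ((2 * Real.pi * (x - y) : ℝ) : ℂ)) := by
    unfold ch
    congr 1
    push_cast
    ring
  rw [h2]
  refine (Real.norm_exp_I_mul_ofReal_sub_one_le).trans ?_
  rw [Real.norm_eq_abs, abs_mul, abs_of_pos (by positivity : (0:ℝ) < 2 * Real.pi)]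

lemma sum_ch (N : ℕ) (hN : 0 < N) (m : ℤ) :
    ∑ z ∈ range N, ch ((m : ℝ) * z / N) = if (N : ℤ) ∣ m then (N : ℂ) else 0 := by
  have hN' : (N : ℝ) ≠ 0 := by positivity
  have h1 : ∀ z ∈ range N, ch ((m : ℝ) * z / N) = ch ((m : ℝ) / N) ^ z := by
    intro z _
    rw [← ch_nat_mul]
    congr 1
    ring
  rw [sum_congr rfl h1]
  split_ifs with h
  · obtain ⟨k, hk⟩ := h
    have h2 : ch ((m : ℝ) / N) = 1 := by
      rw [ch_eq_one_iff]
      refine ⟨k, ?_⟩
      rw [hk]; push_cast; field_simp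
    rw [h2]; simp
  · have h2 : ch ((m : ℝ) / N) ≠ 1 := by
      intro h3
      rw [ch_eq_one_iff] at h3
      obtain ⟨k, hk⟩ := h3
      apply h
      refine ⟨k, ?_⟩
      rw [div_eq_iff hN'] at hk
      have : ((m : ℝ)) = ((k * N : ℤ) : ℝ) := by rw [hk]; push_cast; ring
      have h4 : m = k * N := by exact_mod_cast this
      rw [h4]; ring
    have h3 : ch ((m : ℝ) / N) ^ N = 1 := by
      rw [← ch_nat_mul, ch_eq_one_iff]
      exact ⟨m, by field_simp⟩
    rw [geom_sum_eq h2, h3]; simp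

/-- finite Parseval identity -/
lemma parseval (N : ℕ) (hN : 0 < N) (S : Finset ℤ)
    (hS : ∀ m ∈ S, ∀ m' ∈ S, (N : ℤ) ∣ m - m' → m = m') (a : ℤ → ℂ) :
    ∑ z ∈ range N, ‖∑ m ∈ S, a m * ch ((m : ℝ) * z / N)‖ ^ 2 = N * ∑ m ∈ S, ‖a m‖ ^ 2 := by
  have key : ((∑ z ∈ range N, ‖∑ m ∈ S, a m * ch ((m : ℝ) * z / N)‖ ^ 2 : ℝ) : ℂ) =
      ((N * ∑ m ∈ S, ‖a m‖ ^ 2 : ℝ) : ℂ) := by
    push_cast
    have h1 : ∀ z ∈ range N, ((‖∑ m ∈ S, a m * ch ((m : ℝ) * z / N)‖ : ℂ)) ^ 2 =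
        ∑ m ∈ S, ∑ m' ∈ S, a m * (starRingEnd ℂ) (a m') * ch (((m - m' : ℤ) : ℝ) * z / N) := by
      intro z _
      rw [← Complex.mul_conj', map_sum, sum_mul_sum]
      refine sum_congr rfl fun m _ => sum_congr rfl fun m' _ => ?_
      rw [map_mul, conj_ch]
      have : ch (((m - m' : ℤ) : ℝ) * z / N) = ch ((m : ℝ) * z / N) * ch (-((m' : ℝ) * z / N)) := by
        rw [← ch_add]; congr 1; push_cast; ring
      rw [this]; ring
    rw [sum_congr rfl h1, sum_comm]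
    rw [mul_sum]
    refine sum_congr rfl fun m hm => ?_
    rw [sum_comm]
    rw [sum_eq_single_of_mem m hm]
    · rw [← mul_sum, sum_ch N hN, if_pos (by simp)]
      rw [Complex.mul_conj']
      ring
    · intro m' hm' hne
      rw [← mul_sum, sum_ch N hN, if_neg]
      · simp
      · intro h
        exact hne (hS m hm m' hm' h).symm
  exact_mod_cast key

/-- Dirichlet kernel -/
def Dk (R : ℕ) (x : ℝ) : ℂ := ∑ μ ∈ range R, ch (μ * x)

/-- Fejer kernel, normalized to mean one -/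
def Fj (R : ℕ) (x : ℝ) : ℝ := ‖Dk R x‖ ^ 2 / R

lemma Fj_nonneg (R : ℕ) (x : ℝ) : 0 ≤ Fj R x := by unfold Fj; positivity

lemma parseval_range (N R : ℕ) (hN : 0 < N) (hR : R ≤ N) (a : ℕ → ℂ) (y : ℝ) :
    ∑ z ∈ range N, ‖∑ μ ∈ range R, a μ * ch (μ * (y - z / N))‖ ^ 2 =
      N * ∑ μ ∈ range R, ‖a μ‖ ^ 2 := by
  set S : Finset ℤ := (range R).map ⟨fun n : ℕ => (-(n : ℤ)), by
    intro a b h; simpa using h⟩ with hSdef
  have hS : ∀ m ∈ S, ∀ m' ∈ S, (N : ℤ) ∣ m - m' → m = m' := by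
    intro m hm m' hm' h
    simp only [hSdef, mem_map, mem_range] at hm hm'
    obtain ⟨k, hk, rfl⟩ := hm
    obtain ⟨k', hk', rfl⟩ := hm'
    have h1 : |(-(k:ℤ)) - (-(k':ℤ))| < N := by
      rw [abs_lt]; constructor <;> omega
    have := Int.eq_zero_of_abs_lt_dvd h h1
    omega
  have h := parseval N hN S hS (fun m => a (m.natAbs) * ch (((m.natAbs : ℕ) : ℝ) * y))
  have h1 : ∀ f : ℤ → ℂ, ∑ m ∈ S, f m = ∑ μ ∈ range R, f (-(μ : ℤ)) := by
    intro f; rw [hSdef, sum_map]; rfl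
  have h2 : ∀ f : ℤ → ℝ, ∑ m ∈ S, f m = ∑ μ ∈ range R, f (-(μ : ℤ)) := by
    intro f; rw [hSdef, sum_map]; rfl
  simp only [h1, h2] at h
  simp only [Int.natAbs_neg, Int.natAbs_natCast, norm_mul, norm_ch, mul_one] at h
  rw [← h]
  refine sum_congr rfl fun z _ => ?_
  congr 2
  refine sum_congr rfl fun μ _ => ?_
  rw [mul_assoc, ← ch_add]
  congr 2
  push_cast
  ring

lemma sum_Fj (N R : ℕ) (hR : 0 < R) (hRN : R ≤ N) (y : ℝ) :
    ∑ z ∈ range N, Fj R (y - z / N) = N := by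
  have h := parseval_range N R (by omega) hRN (fun _ => 1) y
  simp only [one_mul, norm_one, one_pow, sum_const, card_range, nsmul_eq_mul, mul_one] at h
  unfold Fj Dk
  rw [← sum_div, h]
  have : (R : ℝ) ≠ 0 := by positivity
  field_simp

/-- `L¹` modulus of continuity of the Fejer kernel -/
lemma sum_Fj_sub (N R : ℕ) (hR : 0 < R) (hRN : R ≤ N) (y y' : ℝ) :
    ∑ z ∈ range N, |Fj R (y - z / N) - Fj R (y' - z / N)| ≤ N * (4 * Real.pi * R * |y - y'|) := by
  have hR' : (0:ℝ) < R := by exact_mod_cast hR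
  have hN : 0 < N := by omega
  have hN' : (0:ℝ) < N := by exact_mod_cast hN
  have h1 : ∀ z ∈ range N, |Fj R (y - z / N) - Fj R (y' - z / N)| ≤
      (‖Dk R (y - z / N) - Dk R (y' - z / N)‖ * ‖Dk R (y - z / N)‖ +
        ‖Dk R (y - z / N) - Dk R (y' - z / N)‖ * ‖Dk R (y' - z / N)‖) / R := by
    intro z _
    unfold Fj
    rw [← sub_div, abs_div, abs_of_pos hR']
    gcongr
    have e : ‖Dk R (y - z / N)‖ ^ 2 - ‖Dk R (y' - z / N)‖ ^ 2 =
        (‖Dk R (y - z / N)‖ - ‖Dk R (y' - z / N)‖) * (‖Dk R (y - z / N)‖ + ‖Dk R (y' - z / N)‖) := by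
      ring
    rw [e, abs_mul, abs_of_nonneg (by positivity : 0 ≤ ‖Dk R (y - z / N)‖ + ‖Dk R (y' - z / N)‖),
      ← mul_add]
    gcongr
    exact abs_norm_sub_norm_le _ _
  refine (sum_le_sum h1).trans ?_
  rw [← sum_div, sum_add_distrib]
  have hA : ∑ z ∈ range N, ‖Dk R (y - z / N) - Dk R (y' - z / N)‖ ^ 2 ≤
      N * (R * (2 * Real.pi * R * |y - y'|) ^ 2) := by
    have e : ∀ z ∈ range N, ‖Dk R (y - z / N) - Dk R (y' - z / N)‖ ^ 2 =
        ‖∑ μ ∈ range R, (ch (μ * (y - y')) - 1) * ch (μ * (y' - z / N))‖ ^ 2 := by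
      intro z _
      congr 2
      unfold Dk
      rw [← sum_sub_distrib]
      refine sum_congr rfl fun μ _ => ?_
      have : ch (μ * (y - z / N)) = ch (μ * (y - y')) * ch (μ * (y' - z / N)) := by
        rw [← ch_add]; congr 1; ring
      rw [this]; ring
    rw [sum_congr rfl e, parseval_range N R hN hRN]
    gcongr
    have : ∑ μ ∈ range R, ‖ch ((μ:ℝ) * (y - y')) - 1‖ ^ 2 ≤
        ∑ μ ∈ range R, (2 * Real.pi * R * |y - y'|) ^ 2 := by
      refine sum_le_sum fun μ hμ => ?_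
      have h3 := norm_ch_sub ((μ:ℝ) * (y - y')) 0
      rw [ch_zero, sub_zero, abs_mul] at h3
      have h4 : |(μ:ℝ)| ≤ R := by
        rw [abs_of_nonneg (by positivity)]
        exact_mod_cast (mem_range.1 hμ).le
      have h5 : ‖ch ((μ:ℝ) * (y - y')) - 1‖ ≤ 2 * Real.pi * R * |y - y'| := by
        refine h3.trans ?_
        have := Real.pi_pos
        have h6 : |(μ:ℝ)| * |y - y'| ≤ R * |y - y'| := by gcongr
        nlinarith
      gcongr
    refine this.trans ?_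
    simp
  have hB : ∀ w : ℝ, ∑ z ∈ range N, ‖Dk R (w - z / N)‖ ^ 2 = N * R := by
    intro w
    have h := parseval_range N R hN hRN (fun _ => 1) w
    simp only [one_mul, norm_one, one_pow, sum_const, card_range, nsmul_eq_mul, mul_one] at h
    exact h
  have hCS : ∀ w : ℝ, ∑ z ∈ range N, ‖Dk R (y - z / N) - Dk R (y' - z / N)‖ * ‖Dk R (w - z / N)‖ ≤
      N * R * (2 * Real.pi * R * |y - y'|) := by
    intro w
    have h := Finset.sum_mul_sq_le_sq_mul_sq (range N)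
      (fun z => ‖Dk R (y - z / N) - Dk R (y' - z / N)‖) (fun z => ‖Dk R (w - z / N)‖)
    rw [hB w] at h
    have h7 : (∑ z ∈ range N, ‖Dk R (y - z / N) - Dk R (y' - z / N)‖ * ‖Dk R (w - z / N)‖) ^ 2 ≤
        (N * R * (2 * Real.pi * R * |y - y'|)) ^ 2 := by
      refine h.trans ?_
      calc _ ≤ (N * (R * (2 * Real.pi * R * |y - y'|) ^ 2)) * (N * R) := by gcongr
        _ = _ := by ring
    have h8 : 0 ≤ N * R * (2 * Real.pi * R * |y - y'|) := by
      have := Real.pi_pos; positivity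
    exact abs_le_of_sq_le_sq' h7 h8 |>.2
  rw [div_le_iff₀ hR']
  have := hCS y
  have := hCS y'
  calc _ ≤ N * R * (2 * Real.pi * R * |y - y'|) + N * R * (2 * Real.pi * R * |y - y'|) := by
        gcongr
    _ = _ := by ring

/-- hat function with center `c` and half width `R` -/
def hat (c : ℤ) (R : ℕ) (m : ℤ) : ℝ := max 0 (1 - |(m : ℝ) - c| / R)

lemma card_diff (R : ℕ) (d : ℤ) :
    ((((range R) ×ˢ (range R)).filter fun q : ℕ × ℕ => (q.1 : ℤ) - q.2 = d).card : ℝ) =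
      max 0 ((R : ℝ) - |(d : ℝ)|) := by
  have h1 : (((range R) ×ˢ (range R)).filter fun q : ℕ × ℕ => (q.1 : ℤ) - q.2 = d) =
      (range (R - d.natAbs)).image (fun t => (t + d.toNat, t + (-d).toNat)) := by
    ext ⟨a, b⟩
    simp only [mem_filter, mem_product, mem_range, mem_image, Prod.mk.injEq]
    constructor
    · rintro ⟨⟨ha, hb⟩, hd⟩
      refine ⟨min a b, ?_, ?_, ?_⟩ <;> omega
    · rintro ⟨t, ht, rfl, rfl⟩
      refine ⟨⟨?_, ?_⟩, ?_⟩ <;> omega
  rw [h1, card_image_of_injective _ (by intro a b h; simp at h; exact h), card_range]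
  have h2 : |(d : ℝ)| = (d.natAbs : ℝ) := by
    rw [Nat.cast_natAbs]; simp
  rw [h2]
  rcases le_total d.natAbs R with h | h
  · rw [Nat.cast_sub h, max_eq_right]
    have : (d.natAbs : ℝ) ≤ R := by exact_mod_cast h
    linarith
  · rw [Nat.sub_eq_zero_of_le h, max_eq_left]
    · simp
    · have : (R : ℝ) ≤ d.natAbs := by exact_mod_cast h
      linarith

lemma hat_eq (c : ℤ) (R : ℕ) (hR : 0 < R) (m : ℤ) :
    hat c R m = ((((range R) ×ˢ (range R)).filter
      fun q : ℕ × ℕ => (q.1 : ℤ) - q.2 = m - c).card : ℝ) / R := by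
  have hR' : (0:ℝ) < R := by exact_mod_cast hR
  rw [card_diff, hat, ← max_div_div_right hR'.le, zero_div]
  congr 1
  push_cast
  field_simp

/-- the modulated Fejer kernel reproduces the hat multiplier -/
lemma kernel_rep (S : Finset ℤ) (a : ℤ → ℂ) (c : ℤ) (R N : ℕ) (hR : 0 < R) (hN : 0 < N)
    (hS : ∀ m ∈ S, |m| + |c| + R ≤ N) (y : ℝ) :
    (N : ℂ) * ∑ m ∈ S, a m * (hat c R m : ℂ) * ch (m * y) =
      ∑ z ∈ range N, (∑ m ∈ S, a m * ch ((m : ℝ) * (z / N))) *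
        (ch ((c : ℝ) * (y - z / N)) * (Fj R (y - z / N) : ℂ)) := by
  have hR' : (R : ℂ) ≠ 0 := by exact_mod_cast hR.ne'
  have hFj : ∀ x : ℝ, (Fj R x : ℂ) =
      (∑ q ∈ (range R) ×ˢ (range R), ch (((q.1 : ℤ) - q.2 : ℤ) * x)) / R := by
    intro x
    unfold Fj Dk
    push_cast
    congr 1
    rw [← Complex.mul_conj', map_sum, sum_mul_sum, sum_product]
    refine sum_congr rfl fun μ _ => sum_congr rfl fun μ' _ => ?_
    rw [conj_ch, ← ch_add]
    congr 1
    ring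
  have h1 : ∀ z ∈ range N, (∑ m ∈ S, a m * ch ((m : ℝ) * (z / N))) *
        (ch ((c : ℝ) * (y - z / N)) * (Fj R (y - z / N) : ℂ)) =
      ∑ m ∈ S, ∑ q ∈ (range R) ×ˢ (range R),
        (a m / R * ch (((c + (q.1 - q.2) : ℤ) : ℝ) * y)) *
          ch (((m - c - (q.1 - q.2) : ℤ) : ℝ) * z / N) := by
    intro z _
    rw [hFj, sum_mul]
    refine sum_congr rfl fun m _ => ?_
    have e0 : a m * ch ((m : ℝ) * (z / N)) * (ch ((c : ℝ) * (y - z / N)) *
        ((∑ q ∈ (range R) ×ˢ (range R), ch (((q.1 : ℤ) - q.2 : ℤ) * (y - z / N))) / R)) =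
        ∑ q ∈ (range R) ×ˢ (range R), a m / R * (ch ((m : ℝ) * (z / N)) *
          (ch ((c : ℝ) * (y - z / N)) * ch (((q.1 : ℤ) - q.2 : ℤ) * (y - z / N)))) := by
      rw [← mul_sum, ← mul_sum, ← mul_sum]
      ring
    rw [e0]
    refine sum_congr rfl fun q _ => ?_
    have e : ch (((c + (q.1 - q.2) : ℤ) : ℝ) * y) * ch (((m - c - (q.1 - q.2) : ℤ) : ℝ) * z / N) =
        ch ((m : ℝ) * (z / N)) * (ch ((c : ℝ) * (y - z / N)) *
          ch (((q.1 : ℤ) - q.2 : ℤ) * (y - z / N))) := by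
      rw [← ch_add, ← ch_add, ← ch_add]
      congr 1
      push_cast
      ring
    rw [mul_assoc (a m / R), e]
  rw [sum_congr rfl h1, sum_comm, mul_sum]
  refine sum_congr rfl fun m hm => ?_
  rw [sum_comm]
  have h2 : ∀ q ∈ (range R) ×ˢ (range R),
      ∑ z ∈ range N, (a m / R * ch (((c + (q.1 - q.2) : ℤ) : ℝ) * y)) *
          ch (((m - c - (q.1 - q.2) : ℤ) : ℝ) * z / N) =
        if (q.1 : ℤ) - q.2 = m - c then (N : ℂ) * (a m / R * ch ((m : ℝ) * y)) else 0 := by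
    intro q hq
    rw [← mul_sum, sum_ch N hN]
    simp only [mem_product, mem_range] at hq
    by_cases h : (q.1 : ℤ) - q.2 = m - c
    · rw [if_pos h, h, if_pos (by simp)]
      have : ((c + (m - c) : ℤ) : ℝ) = m := by push_cast; ring
      rw [this]; ring
    · rw [if_neg h, if_neg, mul_zero]
      intro hd
      apply h
      have h3 : |m - c - ((q.1 : ℤ) - q.2)| < N := by
        have := hS m hm
        have h4 := abs_le.1 (le_refl |m|)
        have h5 := abs_le.1 (le_refl |c|)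
        rw [abs_lt]
        constructor <;> omega
      have := Int.eq_zero_of_abs_lt_dvd hd h3
      omega
  rw [sum_congr rfl h2, ← sum_filter, sum_const, nsmul_eq_mul, hat_eq c R hR]
  push_cast
  ring

/-- hat multipliers do not increase the sup norm -/
lemma hat_bound (S : Finset ℤ) (a : ℤ → ℂ) (c : ℤ) (R : ℕ) (hR : 0 < R) (G : ℝ)
    (hG : ∀ y : ℝ, ‖∑ m ∈ S, a m * ch (m * y)‖ ≤ G) (y : ℝ) :
    ‖∑ m ∈ S, a m * (hat c R m : ℂ) * ch (m * y)‖ ≤ G := by
  obtain ⟨N0, hN0⟩ : ∃ N0 : ℕ, ∀ m ∈ S, m.natAbs ≤ N0 :=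
    ⟨S.sup Int.natAbs, fun m hm => Finset.le_sup (f := Int.natAbs) hm⟩
  set N := N0 + c.natAbs + R with hNdef
  have hN : 0 < N := by omega
  have hN' : (0:ℝ) < N := by exact_mod_cast hN
  have hS : ∀ m ∈ S, |m| + |c| + R ≤ N := by
    intro m hm
    have := hN0 m hm
    rw [Int.abs_eq_natAbs, Int.abs_eq_natAbs]
    omega
  have h := kernel_rep S a c R N hR hN hS y
  have h1 : (N : ℝ) * ‖∑ m ∈ S, a m * (hat c R m : ℂ) * ch (m * y)‖ ≤ N * G := by
    have : (N : ℝ) * ‖∑ m ∈ S, a m * (hat c R m : ℂ) * ch (m * y)‖ =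
        ‖(N : ℂ) * ∑ m ∈ S, a m * (hat c R m : ℂ) * ch (m * y)‖ := by
      rw [norm_mul]; simp
    rw [this, h]
    refine (norm_sum_le _ _).trans ?_
    have h2 : ∀ z ∈ range N, ‖(∑ m ∈ S, a m * ch ((m : ℝ) * (z / N))) *
        (ch ((c : ℝ) * (y - z / N)) * (Fj R (y - z / N) : ℂ))‖ ≤ G * Fj R (y - z / N) := by
      intro z _
      rw [norm_mul, norm_mul, norm_ch, one_mul, Complex.norm_real, Real.norm_eq_abs,
        abs_of_nonneg (Fj_nonneg _ _)]
      have := Fj_nonneg R (y - z / N)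
      have := hG (z / N)
      gcongr
    refine (sum_le_sum h2).trans ?_
    rw [← mul_sum, sum_Fj N R hR (by omega)]
    linarith
  exact le_of_mul_le_mul_left h1 hN'

/-- hat multipliers produce Lipschitz functions -/
lemma hat_lip (S : Finset ℤ) (a : ℤ → ℂ) (c : ℤ) (R : ℕ) (hR : 0 < R) (G : ℝ)
    (hG : ∀ y : ℝ, ‖∑ m ∈ S, a m * ch (m * y)‖ ≤ G) (y y' : ℝ) :
    ‖∑ m ∈ S, a m * (hat c R m : ℂ) * ch (m * y) -
      ∑ m ∈ S, a m * (hat c R m : ℂ) * ch (m * y')‖ ≤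
      G * (2 * Real.pi * |(c : ℝ)| + 4 * Real.pi * R) * |y - y'| := by
  obtain ⟨N0, hN0⟩ : ∃ N0 : ℕ, ∀ m ∈ S, m.natAbs ≤ N0 :=
    ⟨S.sup Int.natAbs, fun m hm => Finset.le_sup (f := Int.natAbs) hm⟩
  set N := N0 + c.natAbs + R with hNdef
  have hN : 0 < N := by omega
  have hN' : (0:ℝ) < N := by exact_mod_cast hN
  have hS : ∀ m ∈ S, |m| + |c| + R ≤ N := by
    intro m hm
    have := hN0 m hm
    rw [Int.abs_eq_natAbs, Int.abs_eq_natAbs]
    omega
  have hG0 : 0 ≤ G := (norm_nonneg _).trans (hG 0)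
  have h1 : (N : ℝ) * ‖∑ m ∈ S, a m * (hat c R m : ℂ) * ch (m * y) -
      ∑ m ∈ S, a m * (hat c R m : ℂ) * ch (m * y')‖ ≤
      N * (G * (2 * Real.pi * |(c : ℝ)| + 4 * Real.pi * R) * |y - y'|) := by
    have : (N : ℝ) * ‖∑ m ∈ S, a m * (hat c R m : ℂ) * ch (m * y) -
      ∑ m ∈ S, a m * (hat c R m : ℂ) * ch (m * y')‖ =
        ‖(N : ℂ) * ∑ m ∈ S, a m * (hat c R m : ℂ) * ch (m * y) -
          (N : ℂ) * ∑ m ∈ S, a m * (hat c R m : ℂ) * ch (m * y')‖ := by
      rw [← mul_sub, norm_mul]; simp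
    rw [this, kernel_rep S a c R N hR hN hS y, kernel_rep S a c R N hR hN hS y',
      ← sum_sub_distrib]
    refine (norm_sum_le _ _).trans ?_
    have h2 : ∀ z ∈ range N, ‖(∑ m ∈ S, a m * ch ((m : ℝ) * (z / N))) *
        (ch ((c : ℝ) * (y - z / N)) * (Fj R (y - z / N) : ℂ)) -
        (∑ m ∈ S, a m * ch ((m : ℝ) * (z / N))) *
        (ch ((c : ℝ) * (y' - z / N)) * (Fj R (y' - z / N) : ℂ))‖ ≤
        G * (2 * Real.pi * |(c : ℝ)| * |y - y'| * Fj R (y - z / N) +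
          |Fj R (y - z / N) - Fj R (y' - z / N)|) := by
      intro z _
      rw [← mul_sub, norm_mul]
      have e1 : ‖ch ((c : ℝ) * (y - z / N)) * (Fj R (y - z / N) : ℂ) -
          ch ((c : ℝ) * (y' - z / N)) * (Fj R (y' - z / N) : ℂ)‖ ≤
          2 * Real.pi * |(c : ℝ)| * |y - y'| * Fj R (y - z / N) +
          |Fj R (y - z / N) - Fj R (y' - z / N)| := by
        have e2 : ch ((c : ℝ) * (y - z / N)) * (Fj R (y - z / N) : ℂ) -
          ch ((c : ℝ) * (y' - z / N)) * (Fj R (y' - z / N) : ℂ) =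
          (ch ((c : ℝ) * (y - z / N)) - ch ((c : ℝ) * (y' - z / N))) * (Fj R (y - z / N) : ℂ) +
          ch ((c : ℝ) * (y' - z / N)) * ((Fj R (y - z / N) - Fj R (y' - z / N) : ℝ) : ℂ) := by
          push_cast; ring
        rw [e2]
        refine (norm_add_le _ _).trans ?_
        rw [norm_mul, norm_mul, norm_ch, one_mul, Complex.norm_real, Complex.norm_real,
          Real.norm_eq_abs, Real.norm_eq_abs, abs_of_nonneg (Fj_nonneg _ _)]
        have e3 := norm_ch_sub ((c : ℝ) * (y - z / N)) ((c : ℝ) * (y' - z / N))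
        have e4 : (c : ℝ) * (y - z / N) - (c : ℝ) * (y' - z / N) = c * (y - y') := by ring
        rw [e4, abs_mul, ← mul_assoc] at e3
        have := Fj_nonneg R (y - z / N)
        gcongr
      have := hG (z / N)
      gcongr
    refine (sum_le_sum h2).trans ?_
    rw [← mul_sum, sum_add_distrib, ← mul_sum, sum_Fj N R hR (by omega)]
    have h3 := sum_Fj_sub N R hR (by omega) y y'
    calc _ ≤ G * (2 * Real.pi * |(c : ℝ)| * |y - y'| * N + N * (4 * Real.pi * R * |y - y'|)) := by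
          gcongr
      _ = _ := by ring
  exact le_of_mul_le_mul_left h1 hN'

end

end Pool.Agent.Helper28.FST
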