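import Pool.Agent.Helper19.RP.Iface

/-!
# MP_795d31_lc, chapter FST: counting cubes with the reference measure
-/

set_option autoImplicit false

open Finset MeasureTheory

namespace Pool.Agent.Helper28.FST

open Pool.Agent.Helper19.RP

noncomputable section

lemma bet_nonneg (x : ℝ) : 0 ≤ bet x := by unfold bet; positivity

lemma continuous_bet : Continuous bet := by
  unfold bet
  exact (Real.continuous_sinc.comp (continuous_const.mul continuous_id)).pow 2

lemma bet_le (x : ℝ) : bet x ≤ 2 * (1 + x ^ 2)⁻¹ := by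
  unfold bet
  rw [← div_eq_mul_inv, le_div_iff₀ (by positivity)]
  have h1 : Real.sinc (Real.pi * x) ^ 2 ≤ 1 := by
    rw [← sq_abs]
    have := Real.abs_sinc_le_one (Real.pi * x)
    exact pow_le_one₀ (abs_nonneg _) this
  have h2 : Real.sinc (Real.pi * x) ^ 2 * x ^ 2 ≤ 1 := by
    by_cases hx : x = 0
    · subst hx; simp
    · have h3 : Real.pi * x ≠ 0 := mul_ne_zero Real.pi_ne_zero hx
      have h4 := Real.sinc_of_ne_zero h3
      rw [h4, div_pow, mul_pow]
      have h5 : Real.sin (Real.pi * x) ^ 2 ≤ 1 := Real.sin_sq_le_one _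
      have h6 : (1:ℝ) ≤ Real.pi ^ 2 := by
        have := Real.pi_gt_three
        nlinarith
      have hx2 : 0 < x ^ 2 := by positivity
      rw [div_mul_eq_mul_div, div_le_one (by positivity)]
      nlinarith
  nlinarith

lemma integrable_bet : Integrable bet := by
  refine Integrable.mono' (g := fun x => 2 * (1 + x ^ 2)⁻¹) ?_ continuous_bet.aestronglyMeasurable ?_
  · exact integrable_inv_one_add_sq.const_mul 2
  · refine Filter.Eventually.of_forall fun x => ?_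
    rw [Real.norm_eq_abs, abs_of_nonneg (bet_nonneg x)]
    exact bet_le x

lemma quarter_le_bet (x : ℝ) (hx : |x| ≤ 1 / 2) : 1 / 4 ≤ bet x := by
  unfold bet
  have h0 : Real.sinc (Real.pi * x) = Real.sinc (Real.pi * |x|) := by
    rcases abs_choice x with h | h
    · rw [h]
    · rw [h, mul_neg, Real.sinc_neg]
  rw [h0]
  by_cases hx0 : |x| = 0
  · rw [hx0, mul_zero, Real.sinc_zero]; norm_num
  · have hpos : 0 < |x| := lt_of_le_of_ne (abs_nonneg _) (Ne.symm hx0)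
    have h3 : Real.pi * |x| ≠ 0 := mul_ne_zero Real.pi_ne_zero hx0
    rw [Real.sinc_of_ne_zero h3]
    have hpi := Real.pi_pos
    have h4 : 2 / Real.pi * (Real.pi * |x|) ≤ Real.sin (Real.pi * |x|) := by
      apply Real.mul_le_sin (by positivity)
      nlinarith
    have h5 : 1 / 2 ≤ Real.sin (Real.pi * |x|) / (Real.pi * |x|) := by
      rw [div_le_div_iff₀ (by norm_num) (by positivity)]
      have h6 : 2 / Real.pi * (Real.pi * |x|) = 2 * |x| := by field_simp
      rw [h6] at h4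
      have := Real.pi_lt_four
      nlinarith
    calc (1:ℝ) / 4 = (1 / 2) ^ 2 := by norm_num
      _ ≤ _ := by gcongr

lemma integrable_prod_bet (n : ℕ) : Integrable (fun a : E n => ∏ j, bet (a j)) := by
  exact Integrable.fintype_prod (fun _ => integrable_bet)

instance finite_mu0 (n : ℕ) : IsFiniteMeasure (mu0 n) := by
  unfold mu0
  refine isFiniteMeasure_withDensity ?_
  have h := (integrable_prod_bet n).lintegral_lt_top
  exact h.ne

/-- the dyadic cube with index `k` at level `v` -/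
def cube {n : ℕ} (v : ℕ) (k : Fin n → ℤ) : Set (E n) :=
  Set.univ.pi fun j => Set.Ico ((k j : ℝ) / 2 ^ v) (((k j : ℝ) + 1) / 2 ^ v)

lemma measurableSet_cube {n : ℕ} (v : ℕ) (k : Fin n → ℤ) : MeasurableSet (cube v k) :=
  MeasurableSet.univ_pi fun _ => measurableSet_Ico

lemma mem_cube_iff {n : ℕ} (v : ℕ) (k : Fin n → ℤ) (a : E n) :
    a ∈ cube v k ↔ ∀ j, k j = ⌊2 ^ v * a j⌋ := by
  have hp : (0:ℝ) < 2 ^ v := by positivity
  unfold cube
  rw [Set.mem_univ_pi]
  refine forall_congr' fun j => ?_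
  rw [eq_comm, Int.floor_eq_iff, Set.mem_Ico, div_le_iff₀ hp, lt_div_iff₀ hp, mul_comm (a j)]

lemma cube_disjoint {n : ℕ} (v : ℕ) (k k' : Fin n → ℤ) (h : k ≠ k') :
    Disjoint (cube v k) (cube v k') := by
  rw [Set.disjoint_left]
  intro a ha ha'
  rw [mem_cube_iff] at ha ha'
  exact h (funext fun j => (ha j).trans (ha' j).symm)

lemma mu0_cube {n : ℕ} (v : ℕ) (k : Fin n → ℤ) (hk : ∀ a ∈ cube v k, ∀ j, |a j| ≤ 1 / 2) :
    (1 / 4 : ℝ) ^ n * (1 / 2 ^ v : ℝ) ^ n ≤ (mu0 n).real (cube v k) := by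
  have hp : (0:ℝ) < 2 ^ v := by positivity
  have h1 : ENNReal.ofReal ((1 / 4 : ℝ) ^ n) * volume (cube v k) ≤ mu0 n (cube v k) := by
    unfold mu0
    rw [withDensity_apply _ (measurableSet_cube v k), ← setLIntegral_const]
    refine setLIntegral_mono' (measurableSet_cube v k) fun a ha => ?_
    apply ENNReal.ofReal_le_ofReal
    have : (1 / 4 : ℝ) ^ n = ∏ _j : Fin n, (1 / 4 : ℝ) := by simp
    rw [this]
    refine prod_le_prod (fun _ _ => by norm_num) fun j _ => quarter_le_bet _ (hk a ha j)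
  have h2 : volume (cube v k) = ENNReal.ofReal ((1 / 2 ^ v : ℝ) ^ n) := by
    unfold cube
    rw [Real.volume_pi_Ico]
    have : ∀ j : Fin n, ((k j : ℝ) + 1) / 2 ^ v - (k j : ℝ) / 2 ^ v = 1 / 2 ^ v := by
      intro j; ring
    simp only [this]
    rw [prod_const, card_univ, Fintype.card_fin, ENNReal.ofReal_pow (by positivity)]
  rw [h2, ← ENNReal.ofReal_mul (by positivity)] at h1
  rw [Measure.real, ← ENNReal.ofReal_le_iff_le_toReal (measure_ne_top _ _)]
  exact h1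

/-- number of dyadic cubes meeting a superlevel set of a Lipschitz function -/
lemma count_cubes {n : ℕ} (F : E n → ℂ) (hcont : Continuous F) (hb : ∀ a, ‖F a‖ ≤ 1)
    (K lam : ℝ) (hK : 1 ≤ K) (hlam : 0 < lam) (hlam1 : lam ≤ 1)
    (hLip : ∀ a a' : E n, ‖F a - F a'‖ ≤ K * ‖a - a'‖) (p w : ℕ) (T : Finset (Fin n → ℤ))
    (pt : (Fin n → ℤ) → E n) (h1 : ∀ s ∈ T, ∀ j, s j = ⌊2 ^ w * pt s j⌋)
    (h2 : ∀ s ∈ T, ∀ j, |pt s j| ≤ 1 / 4) (h3 : ∀ s ∈ T, lam ≤ ‖F (pt s)‖) :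
    (#T : ℝ) ≤ (8 * (2 ^ w + 4 * K / lam)) ^ n * (2 / lam) ^ p * ∫ a, ‖F a‖ ^ p ∂(mu0 n) := by
  set X : ℝ := 2 ^ w + 4 * K / lam with hX
  have hKl : 4 ≤ 4 * K / lam := by
    rw [le_div_iff₀ hlam]; nlinarith
  have hw1 : (1:ℝ) ≤ 2 ^ w := one_le_pow₀ (by norm_num)
  have hX4 : 4 ≤ X := by rw [hX]; linarith
  obtain ⟨v, hv1, hv2⟩ : ∃ v : ℕ, X ≤ 2 ^ v ∧ (2 : ℝ) ^ v ≤ 2 * X := by
    obtain ⟨v, hv⟩ := exists_nat_pow_near (show (1:ℝ) ≤ X by linarith) (show (1:ℝ) < 2 by norm_num)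
    refine ⟨v + 1, hv.2.le, ?_⟩
    rw [pow_succ]; linarith [hv.1]
  have hp : (0:ℝ) < 2 ^ v := by positivity
  have hwv : w ≤ v := by
    have h4 : (2:ℝ) ^ w ≤ 2 ^ v := by
      refine le_trans ?_ hv1
      rw [hX]; linarith
    exact (pow_le_pow_iff_right₀ (by norm_num : (1:ℝ) < 2)).1 h4
  set km : (Fin n → ℤ) → (Fin n → ℤ) := fun s j => ⌊2 ^ v * pt s j⌋ with hkm
  have hinj : Set.InjOn km (T : Set (Fin n → ℤ)) := by
    intro s hs s' hs' h
    have h5 : ∀ t ∈ T, ∀ j, t j = km t j / ((2 ^ (v - w) : ℕ) : ℤ) := by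
      intro t ht j
      rw [h1 t ht j, hkm]
      simp only
      rw [← Int.floor_div_natCast]
      congr 1
      push_cast
      rw [eq_div_iff (by positivity)]
      have : (2:ℝ) ^ v = 2 ^ w * 2 ^ (v - w) := by rw [← pow_add]; congr 1; omega
      rw [this]; ring
    funext j
    rw [h5 s hs j, h5 s' hs' j, h]
  have hmem : ∀ s ∈ T, pt s ∈ cube v (km s) := by
    intro s _
    rw [mem_cube_iff]
    intro j; rfl
  have hdist : ∀ s ∈ T, ∀ a ∈ cube v (km s), ‖pt s - a‖ ≤ 1 / 2 ^ v := by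
    intro s hs a ha
    rw [pi_norm_le_iff_of_nonneg (by positivity)]
    intro j
    have h6 := hmem s hs
    unfold cube at h6 ha
    rw [Set.mem_univ_pi] at h6 ha
    have h7 := h6 j
    have h8 := ha j
    rw [Set.mem_Ico, add_div] at h7 h8
    rw [Pi.sub_apply, Real.norm_eq_abs, abs_le]
    constructor <;> linarith [h7.1, h7.2, h8.1, h8.2]
  have hv4 : (1:ℝ) / 2 ^ v ≤ 1 / 4 := by
    apply one_div_le_one_div_of_le (by norm_num); linarith
  have hhalf : ∀ s ∈ T, ∀ a ∈ cube v (km s), ∀ j, |a j| ≤ 1 / 2 := by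
    intro s hs a ha j
    have h9 := hdist s hs a ha
    have h10 : |(pt s - a) j| ≤ 1 / 2 ^ v := (norm_le_pi_norm (pt s - a) j).trans h9
    have h11 := h2 s hs j
    rw [Pi.sub_apply] at h10
    rw [abs_le] at h10 h11 ⊢
    constructor <;> linarith [h10.1, h10.2, h11.1, h11.2]
  have hbig : ∀ s ∈ T, ∀ a ∈ cube v (km s), lam / 2 ≤ ‖F a‖ := by
    intro s hs a ha
    have h12 := hLip (pt s) a
    have h13 : K * ‖pt s - a‖ ≤ lam / 2 := by
      calc K * ‖pt s - a‖ ≤ K * (1 / 2 ^ v) := by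
            gcongr; exact hdist s hs a ha
        _ ≤ lam / 2 := by
          rw [mul_one_div, div_le_div_iff₀ hp (by norm_num)]
          have h14 : 4 * K / lam ≤ 2 ^ v := by
            refine le_trans ?_ hv1
            rw [hX]; linarith
          rw [div_le_iff₀ hlam] at h14
          nlinarith
    have h15 := h3 s hs
    have h16 := norm_sub_norm_le (F (pt s)) (F a)
    linarith
  have hint : Integrable (fun a => ‖F a‖ ^ p) (mu0 n) := by
    refine Integrable.mono' (integrable_const (1:ℝ)) ?_ ?_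
    · exact ((hcont.norm).pow p).aestronglyMeasurable
    · refine Filter.Eventually.of_forall fun a => ?_
      rw [norm_pow, norm_norm]
      exact pow_le_one₀ (norm_nonneg _) (hb a)
  have hmark := mul_meas_ge_le_integral_of_nonneg (μ := mu0 n) (f := fun a => ‖F a‖ ^ p)
    (Filter.Eventually.of_forall fun a => by positivity) hint ((lam / 2) ^ p)
  have hunion : (#T : ℝ) * ((1 / 4 : ℝ) ^ n * (1 / 2 ^ v : ℝ) ^ n) ≤
      (mu0 n).real {a | (lam / 2) ^ p ≤ ‖F a‖ ^ p} := by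
    have e1 : (mu0 n).real (⋃ s ∈ T, cube v (km s)) = ∑ s ∈ T, (mu0 n).real (cube v (km s)) := by
      apply measureReal_biUnion_finset
      · intro s hs s' hs' hne
        apply cube_disjoint
        intro h
        exact hne (hinj hs hs' h)
      · intro s _
        exact measurableSet_cube _ _
      · intro s _
        exact measure_ne_top _ _
    have e2 : (mu0 n).real (⋃ s ∈ T, cube v (km s)) ≤
        (mu0 n).real {a | (lam / 2) ^ p ≤ ‖F a‖ ^ p} := by
      apply measureReal_mono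
      · intro a ha
        simp only [Set.mem_iUnion] at ha
        obtain ⟨s, hs, ha⟩ := ha
        have := hbig s hs a ha
        show (lam / 2) ^ p ≤ ‖F a‖ ^ p
        gcongr
      · exact measure_ne_top _ _
    rw [e1] at e2
    refine le_trans ?_ e2
    have e3 : ∀ s ∈ T, (1 / 4 : ℝ) ^ n * (1 / 2 ^ v : ℝ) ^ n ≤ (mu0 n).real (cube v (km s)) :=
      fun s hs => mu0_cube v (km s) (hhalf s hs)
    calc (#T : ℝ) * ((1 / 4 : ℝ) ^ n * (1 / 2 ^ v : ℝ) ^ n) =
          ∑ _s ∈ T, (1 / 4 : ℝ) ^ n * (1 / 2 ^ v : ℝ) ^ n := by rw [sum_const, nsmul_eq_mul]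
      _ ≤ _ := sum_le_sum e3
  have hfin : (#T : ℝ) * ((1 / 4 : ℝ) ^ n * (1 / 2 ^ v : ℝ) ^ n) * (lam / 2) ^ p ≤
      ∫ a, ‖F a‖ ^ p ∂(mu0 n) := by
    refine le_trans ?_ hmark
    rw [mul_comm]
    have : 0 ≤ (lam / 2) ^ p := by positivity
    exact mul_le_mul_of_nonneg_left hunion this
  have h18 : 0 ≤ (#T : ℝ) * ((1 / 4 : ℝ) ^ n * (1 / 2 ^ v : ℝ) ^ n) * (lam / 2) ^ p := by positivity
  have e4 : (#T : ℝ) = ((4 : ℝ) ^ n * (2 ^ v) ^ n) * (2 / lam) ^ p *
      ((#T : ℝ) * ((1 / 4 : ℝ) ^ n * (1 / 2 ^ v : ℝ) ^ n) * (lam / 2) ^ p) := by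
    have a1 : (4:ℝ) ^ n * (1 / 4) ^ n = 1 := by rw [← mul_pow]; norm_num
    have a2 : ((2:ℝ) ^ v) ^ n * (1 / 2 ^ v) ^ n = 1 := by
      rw [← mul_pow, mul_one_div, div_self hp.ne', one_pow]
    have a3 : (2 / lam) ^ p * (lam / 2) ^ p = 1 := by
      rw [← mul_pow]
      have : 2 / lam * (lam / 2) = 1 := by field_simp
      rw [this, one_pow]
    calc (#T : ℝ) = #T * ((4:ℝ) ^ n * (1 / 4) ^ n) * (((2:ℝ) ^ v) ^ n * (1 / 2 ^ v) ^ n) *
          ((2 / lam) ^ p * (lam / 2) ^ p) := by rw [a1, a2, a3]; ring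
      _ = _ := by ring
  rw [e4]
  have hI0 : 0 ≤ ∫ a, ‖F a‖ ^ p ∂(mu0 n) := integral_nonneg fun a => by positivity
  have h17 : (4 : ℝ) ^ n * (2 ^ v) ^ n ≤ (8 * X) ^ n := by
    rw [← mul_pow]
    apply pow_le_pow_left₀ (by positivity)
    linarith
  have h19 : (0:ℝ) ≤ (2 / lam) ^ p := by positivity
  have h20 : 0 ≤ (8 * X) ^ n := pow_nonneg (by linarith) n
  exact mul_le_mul (mul_le_mul_of_nonneg_right h17 h19) hfin h18 (mul_nonneg h20 h19)

end

end Pool.Agent.Helper28.FST
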