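import Pool.Agent.Helper28.FST.Split
import Pool.Agent.Helper28.FST.Count
import Pool.Agent.Helper24.DS.Base

/-!
# MP_795d31_lc, chapter FST: PropA implies KEYG
-/

set_option autoImplicit false

open Finset MeasureTheory

namespace Pool.Agent.Helper28.FST

open Pool.Agent.Helper19.RP

noncomputable section

/-- the relevant points of `L` in the column `i` -/
def col (n B r : ℕ) (L : Finset (ℤ × ℤ)) (i : ℕ) : Finset ℤ :=
  (L.filter fun z => z.1 = (i : ℤ) ∧ |z.2| ≤ ((n * B * 2 ^ r + 1 : ℕ) : ℤ)).image Prod.snd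

lemma card_col (n B r : ℕ) (L : Finset (ℤ × ℤ)) :
    ∑ i ∈ range (2 ^ r), (#(col n B r L i) : ℝ) ≤ #L := by
  have h1 : ∀ i ∈ range (2 ^ r), (#(col n B r L i)) ≤ #(L.filter fun z => z.1 = (i : ℤ)) := by
    intro i _
    unfold col
    refine card_image_le.trans (card_le_card ?_)
    intro z hz
    rw [mem_filter] at hz ⊢
    exact ⟨hz.1, hz.2.1⟩
  have h2 : ∑ i ∈ range (2 ^ r), #(L.filter fun z => z.1 = (i : ℤ)) ≤ #L := by
    rw [← card_biUnion]
    · apply card_le_card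
      intro z hz
      rw [mem_biUnion] at hz
      obtain ⟨i, _, hz⟩ := hz
      exact (mem_filter.1 hz).1
    · intro i _ j _ hij
      rw [Function.onFun, disjoint_left]
      intro z hz hz'
      rw [mem_filter] at hz hz'
      apply hij
      have := hz.2.symm.trans hz'.2
      exact_mod_cast this
  have h3 := (sum_le_sum h1).trans h2
  exact_mod_cast h3

/-- the function to which PropA is applied -/
def FF {n : ℕ} (B b0 r : ℕ) (L : Finset (ℤ × ℤ)) (u : ℕ) (a : E n) : ℂ :=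
  ((2 ^ r : ℕ) : ℂ)⁻¹ * ∑ i ∈ range (2 ^ r), ∑ m ∈ Icc (2 ^ u : ℕ) (4 * 2 ^ u),
    (cf (2 ^ r) (2 ^ (r + b0)) (col n B r L i) m * (win u m : ℂ) / (2 ^ (b0 + 2) : ℝ)) *
      ch (m * pol a ((i : ℝ) / (2 ^ r : ℕ)))

lemma FF_eq {n : ℕ} (B b0 r : ℕ) (L : Finset (ℤ × ℤ)) (u : ℕ) (a : E n) :
    FF B b0 r L u a = ((2 ^ r : ℕ) : ℂ)⁻¹ * ∑ i ∈ range (2 ^ r),
      pc (2 ^ r) (2 ^ (r + b0)) (col n B r L i) u (pol a ((i : ℝ) / (2 ^ r : ℕ))) /
        (2 ^ (b0 + 2) : ℝ) := by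
  unfold FF pc
  congr 1
  refine sum_congr rfl fun i _ => ?_
  rw [sum_div]
  refine sum_congr rfl fun m _ => ?_
  ring


lemma col_abs (n B r : ℕ) (L : Finset (ℤ × ℤ)) (i : ℕ) (l : ℤ) (hl : l ∈ col n B r L i) :
    |l| ≤ ((n * B * 2 ^ r + 1 : ℕ) : ℤ) := by
  unfold col at hl
  rw [mem_image] at hl
  obtain ⟨z, hz, rfl⟩ := hl
  exact (mem_filter.1 hz).2.2

lemma col_distinct (n B b0 r : ℕ) (hb0 : 4 * n * B + 4 ≤ 2 ^ b0) (L : Finset (ℤ × ℤ)) (i : ℕ) :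
    ∀ l ∈ col n B r L i, ∀ l' ∈ col n B r L i, ((2 ^ (r + b0) : ℕ) : ℤ) ∣ l - l' → l = l' := by
  intro l hl l' hl' h
  have h1 := col_abs n B r L i l hl
  have h2 := col_abs n B r L i l' hl'
  have h3 : 2 * (n * B * 2 ^ r + 1) < 2 ^ (r + b0) := by
    rw [pow_add]
    have h4 : 1 ≤ 2 ^ r := Nat.one_le_two_pow
    have h5 : 2 ^ r * (4 * n * B + 4) ≤ 2 ^ r * 2 ^ b0 := Nat.mul_le_mul_left _ hb0
    have h6 : 2 ^ r * (4 * n * B + 4) = 4 * (n * B * 2 ^ r) + 4 * 2 ^ r := by ring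
    rw [h6] at h5
    have h7 : 0 ≤ n * B * 2 ^ r := Nat.zero_le _
    linarith
  have h4 : |l - l'| < ((2 ^ (r + b0) : ℕ) : ℤ) := by
    have h5 : |l - l'| ≤ |l| + |l'| := abs_sub l l'
    have h6 : ((2 * (n * B * 2 ^ r + 1) : ℕ) : ℤ) < ((2 ^ (r + b0) : ℕ) : ℤ) := by exact_mod_cast h3
    have h7 : ((2 * (n * B * 2 ^ r + 1) : ℕ) : ℤ) = 2 * ((n * B * 2 ^ r + 1 : ℕ) : ℤ) := by push_cast; ring
    rw [h7] at h6
    linarith
  have := Int.eq_zero_of_abs_lt_dvd h h4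
  omega

lemma sm_col_le (n B b0 r : ℕ) (hb0 : 4 * n * B + 4 ≤ 2 ^ b0) (L : Finset (ℤ × ℤ)) (i : ℕ) (y : ℝ) :
    sm (2 ^ r) (2 ^ (r + b0)) (col n B r L i) y ≤ 2 ^ (b0 + 1) := by
  have h := sm_le (2 ^ r) (2 ^ (r + b0)) (by positivity)
    (Nat.pow_le_pow_right (by norm_num) (by omega)) (col n B r L i)
    (col_distinct n B b0 r hb0 L i) y
  refine h.trans (le_of_eq ?_)
  push_cast
  rw [pow_add, pow_succ]
  field_simp

lemma norm_FF_le {n : ℕ} (B b0 r : ℕ) (hb0 : 4 * n * B + 4 ≤ 2 ^ b0) (L : Finset (ℤ × ℤ)) (u : ℕ)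
    (a : E n) : ‖FF B b0 r L u a‖ ≤ 1 := by
  rw [FF_eq, norm_mul, norm_inv]
  have h1 : ‖((2 ^ r : ℕ) : ℂ)‖ = 2 ^ r := by simp
  rw [h1]
  have h2 : ‖∑ i ∈ range (2 ^ r),
      pc (2 ^ r) (2 ^ (r + b0)) (col n B r L i) u (pol a ((i : ℝ) / (2 ^ r : ℕ))) /
        (2 ^ (b0 + 2) : ℝ)‖ ≤ 2 ^ r := by
    refine (norm_sum_le _ _).trans ?_
    have h3 : ∀ i ∈ range (2 ^ r),
        ‖pc (2 ^ r) (2 ^ (r + b0)) (col n B r L i) u (pol a ((i : ℝ) / (2 ^ r : ℕ))) /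
        (2 ^ (b0 + 2) : ℝ)‖ ≤ 1 := by
      intro i _
      rw [norm_div]
      have h4 : ‖((2 ^ (b0 + 2) : ℝ) : ℂ)‖ = 2 ^ (b0 + 2) := by
        rw [Complex.norm_real, Real.norm_eq_abs, abs_of_nonneg (by positivity)]
      rw [h4, div_le_one (by positivity)]
      have h5 := norm_pc_le (2 ^ r) (2 ^ (r + b0)) (by positivity) (col n B r L i) (2 ^ (b0 + 1))
        (sm_col_le n B b0 r hb0 L i) u (pol a ((i : ℝ) / (2 ^ r : ℕ)))
      refine h5.trans (le_of_eq ?_)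
      ring
    refine (sum_le_sum h3).trans ?_
    simp
  calc (2 ^ r : ℝ)⁻¹ * _ ≤ (2 ^ r : ℝ)⁻¹ * 2 ^ r := by gcongr
    _ = 1 := by rw [inv_mul_cancel₀ (by positivity)]

lemma pol_lip {n : ℕ} (a a' : E n) (t : ℝ) (h0 : 0 ≤ t) (h1 : t ≤ 1) :
    |pol a t - pol a' t| ≤ n * ‖a - a'‖ := by
  unfold pol
  rw [← sum_sub_distrib]
  refine (abs_sum_le_sum_abs _ _).trans ?_
  have h2 : ∀ j ∈ (univ : Finset (Fin n)), |a j * t ^ j.1 - a' j * t ^ j.1| ≤ ‖a - a'‖ := by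
    intro j _
    rw [← sub_mul, abs_mul]
    have h3 : |a j - a' j| ≤ ‖a - a'‖ := norm_le_pi_norm (a - a') j
    have h4 : |t ^ j.1| ≤ 1 := by
      rw [abs_of_nonneg (by positivity)]
      exact pow_le_one₀ h0 h1
    calc _ ≤ ‖a - a'‖ * 1 := by gcongr
      _ = _ := mul_one _
  refine (sum_le_sum h2).trans ?_
  simp

lemma FF_lip {n : ℕ} (B b0 r : ℕ) (hb0 : 4 * n * B + 4 ≤ 2 ^ b0) (L : Finset (ℤ × ℤ)) (u : ℕ)
    (a a' : E n) : ‖FF B b0 r L u a - FF B b0 r L u a'‖ ≤ (32 * n * 2 ^ u) * ‖a - a'‖ := by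
  rw [FF_eq, FF_eq, ← mul_sub, ← sum_sub_distrib, norm_mul, norm_inv]
  have h1 : ‖((2 ^ r : ℕ) : ℂ)‖ = 2 ^ r := by simp
  rw [h1]
  have h2 : ‖∑ i ∈ range (2 ^ r),
      (pc (2 ^ r) (2 ^ (r + b0)) (col n B r L i) u (pol a ((i : ℝ) / (2 ^ r : ℕ))) /
        (2 ^ (b0 + 2) : ℝ) -
       pc (2 ^ r) (2 ^ (r + b0)) (col n B r L i) u (pol a' ((i : ℝ) / (2 ^ r : ℕ))) /
        (2 ^ (b0 + 2) : ℝ))‖ ≤ 2 ^ r * ((32 * n * 2 ^ u) * ‖a - a'‖) := by
    refine (norm_sum_le _ _).trans ?_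
    have h3 : ∀ i ∈ range (2 ^ r),
        ‖pc (2 ^ r) (2 ^ (r + b0)) (col n B r L i) u (pol a ((i : ℝ) / (2 ^ r : ℕ))) /
        (2 ^ (b0 + 2) : ℝ) -
        pc (2 ^ r) (2 ^ (r + b0)) (col n B r L i) u (pol a' ((i : ℝ) / (2 ^ r : ℕ))) /
        (2 ^ (b0 + 2) : ℝ)‖ ≤ (32 * n * 2 ^ u) * ‖a - a'‖ := by
      intro i hi
      rw [← sub_div, norm_div]
      have h4 : ‖((2 ^ (b0 + 2) : ℝ) : ℂ)‖ = 2 ^ (b0 + 2) := by
        rw [Complex.norm_real, Real.norm_eq_abs, abs_of_nonneg (by positivity)]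
      rw [h4, div_le_iff₀ (by positivity)]
      have h5 := pc_lip (2 ^ r) (2 ^ (r + b0)) (by positivity) (col n B r L i) (2 ^ (b0 + 1))
        (sm_col_le n B b0 r hb0 L i) u (pol a ((i : ℝ) / (2 ^ r : ℕ)))
        (pol a' ((i : ℝ) / (2 ^ r : ℕ)))
      refine h5.trans ?_
      have h6 := pol_lip a a' ((i : ℝ) / (2 ^ r : ℕ)) (by positivity) (by
        rw [div_le_one (by positivity)]
        exact_mod_cast (mem_range.1 hi).le)
      calc _ ≤ 2 * (2:ℝ) ^ (b0 + 1) * (32 * 2 ^ u) * (n * ‖a - a'‖) := by gcongr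
        _ = _ := by ring
    refine (sum_le_sum h3).trans ?_
    simp
  calc (2 ^ r : ℝ)⁻¹ * _ ≤ (2 ^ r : ℝ)⁻¹ * (2 ^ r * ((32 * n * 2 ^ u) * ‖a - a'‖)) := by gcongr
    _ = _ := by rw [← mul_assoc, inv_mul_cancel₀ (by positivity), one_mul]

lemma continuous_FF {n : ℕ} (B b0 r : ℕ) (hb0 : 4 * n * B + 4 ≤ 2 ^ b0) (L : Finset (ℤ × ℤ)) (u : ℕ) :
    Continuous (FF (n := n) B b0 r L u) := by
  have : LipschitzWith (32 * n * 2 ^ u) (FF (n := n) B b0 r L u) := by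
    apply LipschitzWith.of_dist_le_mul
    intro a a'
    rw [dist_eq_norm, dist_eq_norm]
    have := FF_lip B b0 r hb0 L u a a'
    push_cast
    exact this
  exact this.continuous

/-- points with many hits are large points of one of the dyadic pieces -/
lemma hit_bound {n : ℕ} (B b0 r : ℕ) (hb0 : 4 * n * B + 4 ≤ 2 ^ b0) (hb3 : 3 ≤ b0)
    (L : Finset (ℤ × ℤ)) (β : Fin n → ℤ) (hβ : ∀ j, |β j| ≤ B * 2 ^ r) :
    ((((range (2 ^ r)).filter fun i : ℕ =>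
          ((i : ℤ), ⌊∑ j, (β j : ℝ) * ((i : ℝ) / 2 ^ r) ^ (j : ℕ)⌋) ∈ L).card : ℕ) : ℝ) / 2 ^ r ≤
      6 * #L / 4 ^ r + 2 ^ (b0 + 3) *
        ∑ u ∈ range r, ‖FF B b0 r L u (fun j => (β j : ℝ) / 2 ^ (r + b0))‖ := by
  set a : E n := fun j => (β j : ℝ) / 2 ^ (r + b0) with ha
  set S := (range (2 ^ r)).filter fun i : ℕ =>
          ((i : ℤ), ⌊∑ j, (β j : ℝ) * ((i : ℝ) / 2 ^ r) ^ (j : ℕ)⌋) ∈ L with hS
  have hA : 0 < 2 ^ r := by positivity
  have h1 : (#S : ℝ) ≤ ∑ i ∈ range (2 ^ r),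
      sm (2 ^ r) (2 ^ (r + b0)) (col n B r L i) (pol a ((i : ℝ) / (2 ^ r : ℕ))) := by
    have h2 : (#S : ℝ) = ∑ i ∈ S, (1:ℝ) := by simp
    rw [h2]
    refine le_trans (sum_le_sum (g := fun i => sm (2 ^ r) (2 ^ (r + b0)) (col n B r L i)
      (pol a ((i : ℝ) / (2 ^ r : ℕ)))) ?_) ?_
    · intro i hi
      rw [hS, mem_filter] at hi
      obtain ⟨hir, hiL⟩ := hi
      set Y := ∑ j, (β j : ℝ) * ((i : ℝ) / 2 ^ r) ^ (j : ℕ) with hY
      have ht0 : (0:ℝ) ≤ (i : ℝ) / 2 ^ r := by positivity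
      have ht1 : (i : ℝ) / 2 ^ r ≤ 1 := by
        rw [div_le_one (by positivity)]
        exact_mod_cast (mem_range.1 hir).le
      have hYabs : |Y| ≤ n * B * 2 ^ r := by
        rw [hY]
        refine (abs_sum_le_sum_abs _ _).trans ?_
        have h3 : ∀ j ∈ (univ : Finset (Fin n)), |(β j : ℝ) * ((i : ℝ) / 2 ^ r) ^ (j : ℕ)| ≤
            B * 2 ^ r := by
          intro j _
          rw [abs_mul]
          have h4 : |(β j : ℝ)| ≤ B * 2 ^ r := by exact_mod_cast hβ j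
          have h5 : |((i : ℝ) / 2 ^ r) ^ (j : ℕ)| ≤ 1 := by
            rw [abs_of_nonneg (by positivity)]
            exact pow_le_one₀ ht0 ht1
          calc _ ≤ (B * 2 ^ r : ℝ) * 1 := by gcongr
            _ = _ := mul_one _
        refine (sum_le_sum h3).trans ?_
        simp only [sum_const, card_univ, Fintype.card_fin, nsmul_eq_mul]
        exact le_of_eq (by ring)
      have hyY : pol a ((i : ℝ) / (2 ^ r : ℕ)) = Y / 2 ^ (r + b0) := by
        unfold pol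
        rw [hY, sum_div]
        refine sum_congr rfl fun j _ => ?_
        rw [ha]
        push_cast
        ring
      apply one_le_sm (2 ^ r) (2 ^ (r + b0)) hA _ _ _ ⌊Y⌋
      · unfold col
        rw [mem_image]
        refine ⟨((i : ℤ), ⌊Y⌋), ?_, rfl⟩
        rw [mem_filter]
        refine ⟨hiL, rfl, ?_⟩
        have h6 : |(⌊Y⌋ : ℝ)| ≤ n * B * 2 ^ r + 1 := by
          rw [abs_le] at hYabs ⊢
          have := Int.floor_le Y
          have := Int.lt_floor_add_one Y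
          constructor <;> linarith [hYabs.1, hYabs.2]
        have h7 : ((|⌊Y⌋| : ℤ) : ℝ) ≤ ((((n * B * 2 ^ r + 1 : ℕ) : ℤ)) : ℝ) := by
          push_cast; exact h6
        exact_mod_cast h7
      · rw [hyY]
        push_cast
        rw [← sub_div]
        have := Int.floor_le Y
        apply div_nonneg (by linarith) (by positivity)
      · rw [hyY]
        push_cast
        rw [← sub_div]
        have := Int.lt_floor_add_one Y
        apply div_le_div_of_nonneg_right _ (by positivity)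
        linarith
      · rw [pow_add, mul_comm (2 ^ r)]
        apply Nat.mul_le_mul_right
        calc 8 = 2 ^ 3 := by norm_num
          _ ≤ 2 ^ b0 := Nat.pow_le_pow_right (by norm_num) hb3
    · apply sum_le_sum_of_subset_of_nonneg
      · rw [hS]; exact filter_subset _ _
      · intro i _ _
        exact sm_nonneg _ _ _ _
  have h2 : ∀ i : ℕ, ∃ low : ℂ, ‖low‖ ≤ 6 / (2 ^ r : ℕ) * #(col n B r L i) ∧
      (sm (2 ^ r) (2 ^ (r + b0)) (col n B r L i) (pol a ((i : ℝ) / (2 ^ r : ℕ))) : ℂ) =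
      low + hi (2 ^ r) (2 ^ (r + b0)) (col n B r L i) (pol a ((i : ℝ) / (2 ^ r : ℕ))) +
        (starRingEnd ℂ) (hi (2 ^ r) (2 ^ (r + b0)) (col n B r L i) (pol a ((i : ℝ) / (2 ^ r : ℕ)))) :=
    fun i => sm_split _ _ hA _ _
  choose low hlow1 hlow2 using h2
  have h3 : (∑ i ∈ range (2 ^ r),
      sm (2 ^ r) (2 ^ (r + b0)) (col n B r L i) (pol a ((i : ℝ) / (2 ^ r : ℕ))) : ℝ) ≤
      6 / 2 ^ r * #L + 2 * ‖∑ i ∈ range (2 ^ r),
        hi (2 ^ r) (2 ^ (r + b0)) (col n B r L i) (pol a ((i : ℝ) / (2 ^ r : ℕ)))‖ := by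
    have h4 : ((∑ i ∈ range (2 ^ r),
      sm (2 ^ r) (2 ^ (r + b0)) (col n B r L i) (pol a ((i : ℝ) / (2 ^ r : ℕ))) : ℝ) : ℂ) =
      ∑ i ∈ range (2 ^ r), low i + ∑ i ∈ range (2 ^ r),
        hi (2 ^ r) (2 ^ (r + b0)) (col n B r L i) (pol a ((i : ℝ) / (2 ^ r : ℕ))) +
      (starRingEnd ℂ) (∑ i ∈ range (2 ^ r),
        hi (2 ^ r) (2 ^ (r + b0)) (col n B r L i) (pol a ((i : ℝ) / (2 ^ r : ℕ)))) := by
      rw [Complex.ofReal_sum, map_sum, ← sum_add_distrib, ← sum_add_distrib]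
      exact sum_congr rfl fun i _ => hlow2 i
    have h5 : (∑ i ∈ range (2 ^ r),
      sm (2 ^ r) (2 ^ (r + b0)) (col n B r L i) (pol a ((i : ℝ) / (2 ^ r : ℕ))) : ℝ) =
      ‖((∑ i ∈ range (2 ^ r),
      sm (2 ^ r) (2 ^ (r + b0)) (col n B r L i) (pol a ((i : ℝ) / (2 ^ r : ℕ))) : ℝ) : ℂ)‖ := by
      rw [Complex.norm_real, Real.norm_eq_abs, abs_of_nonneg]
      exact sum_nonneg fun i _ => sm_nonneg _ _ _ _
    rw [h5, h4]
    refine (norm_add_le _ _).trans ?_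
    have h6 : ‖∑ i ∈ range (2 ^ r), low i‖ ≤ 6 / 2 ^ r * #L := by
      refine (norm_sum_le _ _).trans ((sum_le_sum fun i _ => hlow1 i).trans ?_)
      rw [← mul_sum]
      push_cast
      have := card_col n B r L
      gcongr
    have h7 := norm_add_le (∑ i ∈ range (2 ^ r), low i) (∑ i ∈ range (2 ^ r),
        hi (2 ^ r) (2 ^ (r + b0)) (col n B r L i) (pol a ((i : ℝ) / (2 ^ r : ℕ))))
    rw [RCLike.norm_conj]
    linarith
  have h4 : ∑ i ∈ range (2 ^ r),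
        hi (2 ^ r) (2 ^ (r + b0)) (col n B r L i) (pol a ((i : ℝ) / (2 ^ r : ℕ))) =
      (2 ^ r : ℂ) * (2 ^ (b0 + 2) : ℂ) * ∑ u ∈ range r, FF B b0 r L u a := by
    simp only [hi_eq]
    rw [sum_comm, mul_sum]
    refine sum_congr rfl fun u _ => ?_
    rw [FF_eq, ← sum_div]
    push_cast
    field_simp
  have h5 : ‖∑ i ∈ range (2 ^ r),
        hi (2 ^ r) (2 ^ (r + b0)) (col n B r L i) (pol a ((i : ℝ) / (2 ^ r : ℕ)))‖ ≤
      2 ^ r * 2 ^ (b0 + 2) * ∑ u ∈ range r, ‖FF B b0 r L u a‖ := by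
    rw [h4, norm_mul, norm_mul]
    have e1 : ‖(2 ^ r : ℂ)‖ = 2 ^ r := by simp
    have e2 : ‖(2 ^ (b0 + 2) : ℂ)‖ = 2 ^ (b0 + 2) := by simp
    rw [e1, e2]
    gcongr
    exact norm_sum_le _ _
  rw [div_le_iff₀ (by positivity)]
  have e4 : (4:ℝ) ^ r = 2 ^ r * 2 ^ r := by rw [← mul_pow]; norm_num
  calc (#S : ℝ) ≤ 6 / 2 ^ r * #L + 2 * (2 ^ r * 2 ^ (b0 + 2) * ∑ u ∈ range r, ‖FF B b0 r L u a‖) := by
        linarith
    _ = _ := by
      rw [e4, pow_succ (2:ℝ) (b0 + 2)]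
      have : (2:ℝ) ^ r ≠ 0 := by positivity
      field_simp


/-- bad coefficient vectors for the dyadic piece `u` -/
def QU (n B b0 r : ℕ) (L : Finset (ℤ × ℤ)) (lam : ℝ) (u : ℕ) : Finset (Fin n → ℤ) :=
  open Classical in
  ((Fintype.piFinset fun _ : Fin n => Icc (-(B * 2 ^ r : ℤ)) (B * 2 ^ r)).filter fun β =>
    lam ≤ ‖FF B b0 r L u (fun j => (β j : ℝ) / 2 ^ (r + b0))‖).image
    fun β j => β j / (2 : ℤ) ^ (r - u)

lemma card_QU (n B b0 r : ℕ) (hn : 1 ≤ n) (hb0 : 4 * n * B + 4 ≤ 2 ^ b0)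
    (L : Finset (ℤ × ℤ)) (lam : ℝ) (hlam : 0 < lam) (hlam1 : lam ≤ 1) (u : ℕ) (hu : u ≤ r)
    (p : ℕ) (V : ℝ)
    (hV : ∫ a, ‖FF (n := n) B b0 r L u a‖ ^ p ∂(mu0 n) ≤ V) :
    (#(QU n B b0 r L lam u) : ℝ) ≤
      (8 * (2 ^ (u + b0) + 4 * (32 * n * 2 ^ u) / lam)) ^ n * (2 / lam) ^ p * V := by
  classical
  have hex : ∀ s ∈ QU n B b0 r L lam u, ∃ β : Fin n → ℤ, (∀ j, |β j| ≤ B * 2 ^ r) ∧
      lam ≤ ‖FF B b0 r L u (fun j => (β j : ℝ) / 2 ^ (r + b0))‖ ∧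
      s = fun j => β j / (2 : ℤ) ^ (r - u) := by
    intro s hs
    unfold QU at hs
    rw [mem_image] at hs
    obtain ⟨β, hβ, rfl⟩ := hs
    rw [mem_filter, Fintype.mem_piFinset] at hβ
    refine ⟨β, ?_, hβ.2, rfl⟩
    intro j
    have := hβ.1 j
    rw [mem_Icc] at this
    exact abs_le.2 this
  choose! bt hbt1 hbt2 hbt3 using hex
  have hK : (1:ℝ) ≤ 32 * n * 2 ^ u := by
    have h1 : (1:ℝ) ≤ n := by exact_mod_cast hn
    have h2 : (1:ℝ) ≤ 2 ^ u := one_le_pow₀ (by norm_num)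
    nlinarith
  have h := count_cubes (FF (n := n) B b0 r L u) (continuous_FF B b0 r hb0 L u)
    (norm_FF_le B b0 r hb0 L u) (32 * n * 2 ^ u) lam hK hlam hlam1 (FF_lip B b0 r hb0 L u) p
    (u + b0) (QU n B b0 r L lam u) (fun s j => (bt s j : ℝ) / 2 ^ (r + b0)) ?_ ?_ ?_
  · refine h.trans ?_
    have h1 : (0:ℝ) ≤ (8 * (2 ^ (u + b0) + 4 * (32 * n * 2 ^ u) / lam)) ^ n * (2 / lam) ^ p := by
      have : 0 ≤ 4 * (32 * (n:ℝ) * 2 ^ u) / lam := by positivity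
      positivity
    exact mul_le_mul_of_nonneg_left hV h1
  · intro s hs j
    have h1 := congrFun (hbt3 s hs) j
    rw [h1]
    have h2 : (2:ℝ) ^ (u + b0) * ((bt s j : ℝ) / 2 ^ (r + b0)) = (bt s j : ℝ) / ((2 ^ (r - u) : ℕ) : ℝ) := by
      have h3 : (2:ℝ) ^ (r + b0) = 2 ^ (u + b0) * 2 ^ (r - u) := by
        rw [← pow_add]; congr 1; omega
      rw [h3]
      push_cast
      field_simp
    rw [h2, Int.floor_div_natCast, Int.floor_intCast]
    push_cast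
    rfl
  · intro s hs j
    rw [abs_div, abs_of_pos (by positivity : (0:ℝ) < 2 ^ (r + b0)), div_le_div_iff₀ (by positivity) (by norm_num)]
    have h1 : (|bt s j| : ℝ) ≤ B * 2 ^ r := by exact_mod_cast hbt1 s hs j
    have h2 : (4 * B : ℝ) ≤ 2 ^ b0 := by
      have : 4 * B ≤ 2 ^ b0 := by
        calc 4 * B ≤ 4 * n * B := by nlinarith
          _ ≤ _ := by omega
      exact_mod_cast this
    rw [pow_add]
    have h3 : (0:ℝ) < 2 ^ r := by positivity
    nlinarith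
  · intro s hs
    exact hbt2 s hs

/-- the `L²` norm of the input of PropA -/
lemma input_l2 (n B b0 r : ℕ) (hb0 : 4 * n * B + 4 ≤ 2 ^ b0) (L : Finset (ℤ × ℤ)) (u : ℕ) :
    (((2 ^ r : ℕ) : ℝ)⁻¹ * ∑ i ∈ range (2 ^ r), ∑ m ∈ Icc (2 ^ u : ℕ) (4 * 2 ^ u),
      ‖cf (2 ^ r) (2 ^ (r + b0)) (col n B r L i) m * (win u m : ℂ) / (2 ^ (b0 + 2) : ℝ)‖ ^ 2) ≤
      #L / 4 ^ r := by
  have h1 : ∀ i ∈ range (2 ^ r), ∑ m ∈ Icc (2 ^ u : ℕ) (4 * 2 ^ u),
      ‖cf (2 ^ r) (2 ^ (r + b0)) (col n B r L i) m * (win u m : ℂ) / (2 ^ (b0 + 2) : ℝ)‖ ^ 2 ≤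
      1 / 2 ^ r * #(col n B r L i) := by
    intro i _
    have h2 := sum_pc_sq (2 ^ r) (2 ^ (r + b0)) (by positivity) (col n B r L i) (2 ^ (b0 + 1))
      (sm_col_le n B b0 r hb0 L i) u
    have h3 : ∀ m ∈ Icc (2 ^ u : ℕ) (4 * 2 ^ u),
      ‖cf (2 ^ r) (2 ^ (r + b0)) (col n B r L i) m * (win u m : ℂ) / (2 ^ (b0 + 2) : ℝ)‖ ^ 2 =
      (1 / (2 ^ (b0 + 2)) ^ 2) *
        ‖cf (2 ^ r) (2 ^ (r + b0)) (col n B r L i) m * (win u m : ℂ)‖ ^ 2 := by
      intro m _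
      rw [norm_div]
      have h4 : ‖((2 ^ (b0 + 2) : ℝ) : ℂ)‖ = 2 ^ (b0 + 2) := by
        rw [Complex.norm_real, Real.norm_eq_abs, abs_of_nonneg (by positivity)]
      rw [h4, div_pow]
      ring
    rw [sum_congr rfl h3, ← mul_sum]
    have h5 : (0:ℝ) < 2 ^ b0 := by positivity
    have h6 : (1:ℝ) ≤ 2 ^ b0 := one_le_pow₀ (by norm_num)
    calc _ ≤ (1 / ((2:ℝ) ^ (b0 + 2)) ^ 2) * (2 ^ (b0 + 1) * (2 / ((2 ^ r : ℕ) : ℝ) * #(col n B r L i))) := by
          gcongr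
      _ = (1 / (4 * 2 ^ b0)) * (1 / 2 ^ r * #(col n B r L i)) := by
          push_cast
          rw [pow_add, pow_add]
          field_simp
          ring
      _ ≤ 1 * (1 / 2 ^ r * #(col n B r L i)) := by
          gcongr
          rw [div_le_one (by positivity)]
          linarith
      _ = _ := one_mul _
  have h2 := sum_le_sum h1
  rw [← mul_sum] at h2
  have h3 := card_col n B r L
  have e5 : ((2 ^ r : ℕ) : ℝ) = 2 ^ r := by push_cast; rfl
  rw [e5]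
  have e4 : (4:ℝ) ^ r = 2 ^ r * 2 ^ r := by rw [← mul_pow]; norm_num
  calc _ ≤ ((2:ℝ) ^ r)⁻¹ * (1 / 2 ^ r * ∑ i ∈ range (2 ^ r), (#(col n B r L i) : ℝ)) := by gcongr
    _ ≤ ((2:ℝ) ^ r)⁻¹ * (1 / 2 ^ r * #L) := by gcongr
    _ = _ := by rw [e4]; field_simp


lemma numeric (E N r u k : ℕ) (hE : 0 < E) (hk : 0 < k) (hN : N = 4 * E * k) (hu : u ≤ r) :
    (r : ℝ) ^ k * (2 : ℝ) ^ ((r / N) * k) * (2 : ℝ) ^ ((u : ℝ) * (1 / (4 * E))) ≤
      2 * N ^ k * 2 ^ (r / E) := by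
  have hE' : (0:ℝ) < E := by exact_mod_cast hE
  have hk' : (0:ℝ) < k := by exact_mod_cast hk
  have hNpos : 0 < N := by rw [hN]; positivity
  have hN' : (0:ℝ) < N := by exact_mod_cast hNpos
  have hNr : (N:ℝ) = 4 * E * k := by rw [hN]; push_cast; ring
  have h1 : (r : ℝ) ≤ N * (2:ℝ) ^ ((r : ℝ) / N) := by
    have h2 : (r : ℝ) / N ≤ (2:ℝ) ^ ((r : ℝ) / N) := by
      have h3 : (0:ℝ) ≤ (r:ℝ) / N := by positivity
      have h4 : 1 + ((r : ℝ) / N) * Real.log 2 ≤ Real.exp (((r : ℝ) / N) * Real.log 2) := by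
        have := Real.add_one_le_exp (((r : ℝ) / N) * Real.log 2)
        linarith
      have h5 : (2:ℝ) ^ ((r : ℝ) / N) = Real.exp (((r : ℝ) / N) * Real.log 2) := by
        rw [Real.rpow_def_of_pos (by norm_num), mul_comm]
      rcases le_total ((r:ℝ)/N) 1 with h6 | h6
      · exact h6.trans (Real.one_le_rpow (by norm_num) h3)
      · -- x ≤ 2^x for x ≥ 1
        have h7 := one_add_mul_self_le_rpow_one_add (s := 1) (by norm_num) h6
        have e : (1:ℝ) + 1 = 2 := by norm_num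
        rw [e] at h7
        linarith
    rw [div_le_iff₀ hN'] at h2
    linarith
  have h2 : (r : ℝ) ^ k ≤ N ^ k * (2:ℝ) ^ ((r : ℝ) * (1 / (4 * E))) := by
    calc (r : ℝ) ^ k ≤ (N * (2:ℝ) ^ ((r : ℝ) / N)) ^ k := by gcongr
      _ = N ^ k * (2:ℝ) ^ ((r : ℝ) * (1 / (4 * E))) := by
        rw [mul_pow, ← Real.rpow_natCast ((2:ℝ) ^ ((r : ℝ) / N)), ← Real.rpow_mul (by norm_num)]
        congr 2
        rw [hNr]; field_simp
  have h3 : (2 : ℝ) ^ ((r / N) * k) ≤ (2:ℝ) ^ ((r : ℝ) * (1 / (4 * E))) := by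
    rw [← Real.rpow_natCast]
    apply Real.rpow_le_rpow_of_exponent_le (by norm_num)
    push_cast
    have h4 : ((r / N : ℕ) : ℝ) ≤ (r : ℝ) / N := Nat.cast_div_le
    calc ((r / N : ℕ) : ℝ) * k ≤ (r : ℝ) / N * k := by gcongr
      _ = _ := by rw [hNr]; field_simp
  have h4 : (2 : ℝ) ^ ((u : ℝ) * (1 / (4 * E))) ≤ (2:ℝ) ^ ((r : ℝ) * (1 / (4 * E))) := by
    apply Real.rpow_le_rpow_of_exponent_le (by norm_num)
    have : (u : ℝ) ≤ r := by exact_mod_cast hu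
    gcongr
  have h5 : (2:ℝ) ^ ((r : ℝ) * (1 / (4 * E))) * (2:ℝ) ^ ((r : ℝ) * (1 / (4 * E))) *
      (2:ℝ) ^ ((r : ℝ) * (1 / (4 * E))) ≤ 2 * 2 ^ (r / E) := by
    rw [← Real.rpow_add (by norm_num), ← Real.rpow_add (by norm_num)]
    have e : (2:ℝ) * 2 ^ (r / E) = (2:ℝ) ^ (((r / E + 1 : ℕ) : ℝ)) := by
      rw [Real.rpow_natCast, pow_succ]; ring
    rw [e]
    apply Real.rpow_le_rpow_of_exponent_le (by norm_num)
    push_cast
    have h6 : (r : ℝ) / E ≤ ((r / E : ℕ) : ℝ) + 1 := by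
      rw [div_le_iff₀ hE']
      have h7 : r < (r / E + 1) * E := by
        have := Nat.lt_div_mul_add (a := r) hE
        linarith [this]
      have h8 : (r : ℝ) < ((r / E + 1 : ℕ) : ℝ) * E := by exact_mod_cast h7
      push_cast at h8
      exact h8.le
    have h9 : (r : ℝ) * (1 / (4 * E)) + (r : ℝ) * (1 / (4 * E)) + (r : ℝ) * (1 / (4 * E)) ≤ (r : ℝ) / E := by
      have : (r : ℝ) * (1 / (4 * E)) + (r : ℝ) * (1 / (4 * E)) + (r : ℝ) * (1 / (4 * E)) = 3 / 4 * ((r : ℝ) / E) := by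
        field_simp; ring
      rw [this]
      have : 0 ≤ (r : ℝ) / E := by positivity
      linarith
    linarith
  set X := (2:ℝ) ^ ((r : ℝ) * (1 / (4 * E))) with hX
  have hX0 : 0 < X := by positivity
  calc (r : ℝ) ^ k * (2 : ℝ) ^ ((r / N) * k) * (2 : ℝ) ^ ((u : ℝ) * (1 / (4 * E))) ≤
      (N ^ k * X) * X * X := by gcongr
    _ = N ^ k * (X * X * X) := by ring
    _ ≤ N ^ k * (2 * 2 ^ (r / E)) := by gcongr
    _ = _ := by ring

theorem KEYG_of_PropA (n B : ℕ) (hn : 1 ≤ n) (h : PropA n) :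
    Pool.Agent.Helper24.DS.KEYG n B := by
  classical
  intro E hE
  have hE' : (0:ℝ) < E := by exact_mod_cast hE
  obtain ⟨p0, hp0⟩ := h (1 / (4 * E)) (by positivity)
  set p := 2 * p0 with hp
  obtain ⟨CA, hCA, hA⟩ := hp0 p (by omega) (by rw [hp]; exact even_two_mul p0)
  obtain ⟨b0, hb0, hb3⟩ : ∃ b0 : ℕ, 4 * n * B + 4 ≤ 2 ^ b0 ∧ 3 ≤ b0 :=
    ⟨4 * n * B + 4, Nat.lt_two_pow_self.le, by omega⟩
  set k := n + p with hk
  have hk0 : 0 < k := by omega
  set N := 4 * E * k with hN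
  have hN0 : 0 < N := by positivity
  have hEN : E ≤ N := by
    calc E = E * 1 := (mul_one E).symm
      _ ≤ E * (4 * k) := Nat.mul_le_mul_left _ (by omega)
      _ = N := by rw [hN]; ring
  set C2 : ℝ := (8 * (2 ^ b0 + 128 * n)) ^ n * 2 ^ p * CA * (2 ^ (b0 + 4)) ^ k with hC2
  have hC2' : 0 < C2 := by positivity
  set C : ℕ := ⌈C2 * (2 * N ^ k)⌉₊ + 12 * (2 * B + 1) ^ n with hC
  refine ⟨N, C, hN0, ?_⟩
  intro r L
  set lam : ℝ := 1 / (2 ^ (r / N) * (2 ^ (b0 + 4) * r)) with hlam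
  set big : Prop := 4 ^ r ≤ 12 * #L * 2 ^ (r / N) with hbig
  refine ⟨fun u => if big then (if u = 0 then Fintype.piFinset fun _ : Fin n => Icc (-(B : ℤ)) B
    else ∅) else (if u < r then QU n B b0 r L lam u else ∅), ?_, ?_⟩
  · intro u hu
    by_cases hcase : big
    · simp only [if_pos hcase]
      by_cases hu0 : u = 0
      · subst hu0
        rw [if_pos rfl, Fintype.card_piFinset]
        have e1 : ∀ j : Fin n, #(Icc (-(B : ℤ)) B) = 2 * B + 1 := by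
          intro j; rw [Int.card_Icc]; omega
        rw [prod_congr rfl fun j _ => e1 j, prod_const, card_univ, Fintype.card_fin]
        have h1 : 2 ^ (r / N) ≤ 2 ^ (0 + r / E) := by
          apply Nat.pow_le_pow_right (by norm_num)
          rw [zero_add]
          exact Nat.div_le_div_left hEN hE
        calc (2 * B + 1) ^ n * 4 ^ r ≤ (2 * B + 1) ^ n * (12 * #L * 2 ^ (r / N)) :=
              Nat.mul_le_mul_left _ hcase
          _ = 12 * (2 * B + 1) ^ n * 2 ^ (r / N) * #L := by ring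
          _ ≤ C * 2 ^ (0 + r / E) * #L := by
              apply Nat.mul_le_mul_right
              apply Nat.mul_le_mul _ h1
              rw [hC]; exact Nat.le_add_left _ _
      · rw [if_neg hu0]; simp
    · simp only [if_neg hcase]
      by_cases hur : u < r
      · rw [if_pos hur]
        have hr : 0 < r := by omega
        have hr' : (0:ℝ) < r := by exact_mod_cast hr
        have hr1 : (1:ℝ) ≤ r := by exact_mod_cast hr
        have hden : (1:ℝ) ≤ 2 ^ (r / N) * (2 ^ (b0 + 4) * r) := by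
          have a1 : (1:ℝ) ≤ 2 ^ (r / N) := one_le_pow₀ (by norm_num)
          have a2 : (1:ℝ) ≤ 2 ^ (b0 + 4) := one_le_pow₀ (by norm_num)
          nlinarith [mul_le_mul a1 (mul_le_mul a2 hr1 (by norm_num) (by positivity)) (by norm_num)
            (by positivity)]
        have hlam0 : 0 < lam := by rw [hlam]; positivity
        have hlam1 : lam ≤ 1 := by
          rw [hlam, div_le_one (by positivity)]; exact hden
        have hsup : ∀ i < 2 ^ r, ∀ y : ℝ, ‖∑ m ∈ Icc (2 ^ u : ℕ) (4 * 2 ^ u),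
            (cf (2 ^ r) (2 ^ (r + b0)) (col n B r L i) m * (win u m : ℂ) / (2 ^ (b0 + 2) : ℝ)) *
              ch (m * y)‖ ≤ 1 := by
          intro i _ y
          have e1 : ∑ m ∈ Icc (2 ^ u : ℕ) (4 * 2 ^ u),
            (cf (2 ^ r) (2 ^ (r + b0)) (col n B r L i) m * (win u m : ℂ) / (2 ^ (b0 + 2) : ℝ)) *
              ch (m * y) = pc (2 ^ r) (2 ^ (r + b0)) (col n B r L i) u y / (2 ^ (b0 + 2) : ℝ) := by
            unfold pc
            rw [sum_div]
            refine sum_congr rfl fun m _ => ?_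
            ring
          rw [e1, norm_div]
          have h4 : ‖((2 ^ (b0 + 2) : ℝ) : ℂ)‖ = 2 ^ (b0 + 2) := by
            rw [Complex.norm_real, Real.norm_eq_abs, abs_of_nonneg (by positivity)]
          rw [h4, div_le_one (by positivity)]
          have h5 := norm_pc_le (2 ^ r) (2 ^ (r + b0)) (by positivity) (col n B r L i) (2 ^ (b0 + 1))
            (sm_col_le n B b0 r hb0 L i) u y
          refine h5.trans (le_of_eq ?_)
          ring
        have hPA := hA (2 ^ u) (2 ^ r) Nat.one_le_two_pow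
          (Nat.pow_le_pow_right (by norm_num) hur.le)
          (fun i m => cf (2 ^ r) (2 ^ (r + b0)) (col n B r L i) m * (win u m : ℂ) /
            (2 ^ (b0 + 2) : ℝ)) hsup
        have hV : ∫ a, ‖FF (n := n) B b0 r L u a‖ ^ p ∂(mu0 n) ≤
            CA * ((2:ℝ) ^ u) ^ (-((n : ℝ) - 1) + 1 / (4 * E)) * (#L / 4 ^ r) := by
          refine le_trans hPA ?_
          have h6 := input_l2 n B b0 r hb0 L u
          push_cast at h6 ⊢
          gcongr
        have hcard := card_QU n B b0 r hn hb0 L lam hlam0 hlam1 u hur.le p _ hV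
        -- real inequality
        have h2u : (0:ℝ) < 2 ^ u := by positivity
        have e2 : ((2:ℝ) ^ u) ^ (-((n : ℝ) - 1) + 1 / (4 * E)) * (2 ^ u) ^ n =
            2 ^ u * (2:ℝ) ^ ((u:ℝ) * (1 / (4 * E))) := by
          rw [← Real.rpow_natCast ((2:ℝ) ^ u) n, ← Real.rpow_add h2u]
          have : -((n : ℝ) - 1) + 1 / (4 * E) + n = 1 + 1 / (4 * E) := by ring
          rw [this, Real.rpow_add h2u, Real.rpow_one, ← Real.rpow_natCast 2 u,
            ← Real.rpow_mul (by norm_num)]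
        have e3 : 8 * ((2:ℝ) ^ (u + b0) + 4 * (32 * n * 2 ^ u) / lam) ≤
            (8 * (2 ^ b0 + 128 * n)) * 2 ^ u * (1 / lam) := by
          have h7 : (1:ℝ) ≤ 1 / lam := by
            rw [le_div_iff₀ hlam0]; linarith
          have h8 : (2:ℝ) ^ (u + b0) ≤ 2 ^ (u + b0) * (1 / lam) := by
            have : (0:ℝ) < 2 ^ (u + b0) := by positivity
            nlinarith
          have e4 : (8 * ((2:ℝ) ^ b0 + 128 * n)) * 2 ^ u * (1 / lam) =
              8 * (2 ^ (u + b0) * (1 / lam) + 4 * (32 * n * 2 ^ u) / lam) := by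
            rw [pow_add]; ring
          rw [e4]
          linarith
        have hlaminv : (1:ℝ) / lam = 2 ^ (r / N) * (2 ^ (b0 + 4) * r) := by
          rw [hlam, one_div_one_div]
        have h9 : (#(QU n B b0 r L lam u) : ℝ) ≤
            ((8 * (2 ^ b0 + 128 * n)) * 2 ^ u * (1 / lam)) ^ n * (2 / lam) ^ p *
              (CA * ((2:ℝ) ^ u) ^ (-((n : ℝ) - 1) + 1 / (4 * E)) * (#L / 4 ^ r)) := by
          refine hcard.trans ?_
          have : (0:ℝ) ≤ 8 * ((2:ℝ) ^ (u + b0) + 4 * (32 * n * 2 ^ u) / lam) := by positivity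
          gcongr
        have h10 : (#(QU n B b0 r L lam u) : ℝ) * 4 ^ r ≤
            C2 * ((r : ℝ) ^ k * (2 : ℝ) ^ ((r / N) * k) * (2 : ℝ) ^ ((u : ℝ) * (1 / (4 * E)))) *
              2 ^ u * #L := by
          have h4r : (0:ℝ) < 4 ^ r := by positivity
          calc (#(QU n B b0 r L lam u) : ℝ) * 4 ^ r ≤
              (((8 * (2 ^ b0 + 128 * n)) * 2 ^ u * (1 / lam)) ^ n * (2 / lam) ^ p *
              (CA * ((2:ℝ) ^ u) ^ (-((n : ℝ) - 1) + 1 / (4 * E)) * (#L / 4 ^ r))) * 4 ^ r := by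
                gcongr
            _ = (8 * (2 ^ b0 + 128 * n)) ^ n * 2 ^ p * CA * (1 / lam) ^ k *
                (((2:ℝ) ^ u) ^ (-((n : ℝ) - 1) + 1 / (4 * E)) * (2 ^ u) ^ n) * #L := by
                have e5 : ((2:ℝ) / lam) ^ p = 2 ^ p * (1 / lam) ^ p := by
                  rw [← mul_pow]; congr 1; ring
                have e6 : ((8 * ((2:ℝ) ^ b0 + 128 * n)) * 2 ^ u * (1 / lam)) ^ n =
                    (8 * (2 ^ b0 + 128 * n)) ^ n * (2 ^ u) ^ n * (1 / lam) ^ n := by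
                  rw [mul_pow, mul_pow]
                have e7 : (#L : ℝ) / 4 ^ r * 4 ^ r = #L := by field_simp
                rw [e5, e6, hk, pow_add (1 / lam) n p]
                calc _ = (8 * ((2:ℝ) ^ b0 + 128 * n)) ^ n * (2 ^ u) ^ n * (1 / lam) ^ n *
                      (2 ^ p * (1 / lam) ^ p) *
                      (CA * ((2:ℝ) ^ u) ^ (-((n : ℝ) - 1) + 1 / (4 * E))) * (#L / 4 ^ r * 4 ^ r) := by
                        ring
                  _ = _ := by rw [e7]; ring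
            _ = _ := by
                rw [e2, hlaminv, hC2, mul_pow, mul_pow, ← pow_mul 2 (r / N) k]
                ring
        have h11 := numeric E N r u k hE hk0 hN hur.le
        have h12 : (#(QU n B b0 r L lam u) : ℝ) * 4 ^ r ≤ C * 2 ^ (u + r / E) * #L := by
          refine h10.trans ?_
          have h13 : C2 * (2 * N ^ k) ≤ (C : ℝ) := by
            rw [hC]; push_cast
            have := Nat.le_ceil (C2 * (2 * (N:ℝ) ^ k))
            have h14 : (0:ℝ) ≤ 12 * (2 * B + 1) ^ n := by positivity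
            linarith
          calc C2 * ((r : ℝ) ^ k * (2 : ℝ) ^ ((r / N) * k) * (2 : ℝ) ^ ((u : ℝ) * (1 / (4 * E)))) *
              2 ^ u * #L ≤ C2 * (2 * N ^ k * 2 ^ (r / E)) * 2 ^ u * #L := by gcongr
            _ = (C2 * (2 * N ^ k)) * 2 ^ (u + r / E) * #L := by rw [pow_add]; ring
            _ ≤ _ := by gcongr
        exact_mod_cast h12
      · rw [if_neg hur]; simp
  · intro β hβ hhit
    have hb := hit_bound B b0 r hb0 hb3 L β hβ
    set cnt := ((range (2 ^ r)).filter fun i : ℕ =>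
          ((i : ℤ), ⌊∑ j, (β j : ℝ) * ((i : ℝ) / 2 ^ r) ^ (j : ℕ)⌋) ∈ L).card with hcnt
    have hX : (0:ℝ) < 2 ^ (r / N) := by positivity
    have h1 : 1 / 2 ^ (r / N) ≤ (cnt : ℝ) / 2 ^ r := by
      rw [div_le_div_iff₀ hX (by positivity), one_mul]
      have h2 : (2:ℝ) ^ r = 2 ^ (r - r / N) * 2 ^ (r / N) := by
        rw [← pow_add]; congr 1
        have := Nat.div_le_self r N
        omega
      rw [h2]
      have h3 : (2:ℝ) ^ (r - r / N) ≤ cnt := by exact_mod_cast hhit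
      gcongr
    by_cases hcase : big
    · refine ⟨0, Nat.zero_le _, ?_⟩
      simp only [if_pos hcase, if_true]
      rw [Fintype.mem_piFinset]
      intro j
      rw [mem_Icc]
      have h2 := abs_le.1 (hβ j)
      have hp2 : (0:ℤ) < 2 ^ (r - 0) := by positivity
      have e : (2:ℤ) ^ (r - 0) = 2 ^ r := by simp
      constructor
      · rw [Int.le_ediv_iff_mul_le hp2, e]; linarith [h2.1]
      · have : β j / 2 ^ (r - 0) ≤ (B * 2 ^ r) / 2 ^ (r - 0) := by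
          apply Int.ediv_le_ediv hp2 h2.2
        refine this.trans (le_of_eq ?_)
        rw [e, Int.mul_ediv_cancel _ (by positivity)]
    · have h2 : (6:ℝ) * #L / 4 ^ r < 1 / 2 * (1 / 2 ^ (r / N)) := by
        rw [hbig, not_le] at hcase
        have h3 : (12:ℝ) * #L * 2 ^ (r / N) < 4 ^ r := by exact_mod_cast hcase
        rw [div_lt_iff₀ (by positivity)]
        have e : 1 / 2 * (1 / (2:ℝ) ^ (r / N)) * 4 ^ r = 4 ^ r / (2 * 2 ^ (r / N)) := by
          field_simp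
        rw [e, lt_div_iff₀ (by positivity)]
        linarith
      have h3 : 1 / 2 * (1 / (2:ℝ) ^ (r / N)) < 2 ^ (b0 + 3) *
          ∑ u ∈ range r, ‖FF B b0 r L u (fun j => (β j : ℝ) / 2 ^ (r + b0))‖ := by
        linarith
      by_contra hcon
      push Not at hcon
      have h4 : ∀ u ∈ range r, ‖FF B b0 r L u (fun j => (β j : ℝ) / 2 ^ (r + b0))‖ ≤ lam := by
        intro u hu
        rw [mem_range] at hu
        have h5 := hcon u hu.le
        simp only [if_neg hcase, if_pos hu] at h5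
        by_contra h6
        push Not at h6
        apply h5
        unfold QU
        rw [mem_image]
        refine ⟨β, ?_, rfl⟩
        rw [mem_filter, Fintype.mem_piFinset]
        refine ⟨fun j => ?_, h6.le⟩
        rw [mem_Icc]
        exact abs_le.1 (hβ j)
      have h5 := sum_le_sum h4
      rw [sum_const, card_range, nsmul_eq_mul] at h5
      have h6 : 1 / 2 * (1 / (2:ℝ) ^ (r / N)) < 2 ^ (b0 + 3) * (r * lam) := by
        refine h3.trans_le ?_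
        gcongr
      rcases Nat.eq_zero_or_pos r with hr | hr
      · subst hr
        simp at h6
        linarith [hX]
      · have hr' : (0:ℝ) < r := by exact_mod_cast hr
        have e : (2:ℝ) ^ (b0 + 3) * (r * lam) = 1 / 2 * (1 / (2:ℝ) ^ (r / N)) := by
          rw [hlam, pow_succ (2:ℝ) (b0 + 3)]
          field_simp
        rw [e] at h6
        exact lt_irrefl _ h6

end

end Pool.Agent.Helper28.FST
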