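import Pool.Agent.Helper28.FST.Trig

/-!
# MP_795d31_lc, chapter FST: smoothed indicator functions and their dyadic pieces
-/

set_option autoImplicit false

open Finset

namespace Pool.Agent.Helper28.FST

open Pool.Agent.Helper19.RP

noncomputable section

/-- Fourier coefficients of the smoothed indicator of `Λ / N` -/
def cf (A N : ℕ) (Λ : Finset ℤ) (m : ℤ) : ℂ :=
  (2 / A : ℝ) * (hat 0 A m : ℂ) * ∑ l ∈ Λ, ch (-((m : ℝ) * (l / N)))

/-- smoothed indicator function -/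
def sm (A N : ℕ) (Λ : Finset ℤ) (y : ℝ) : ℝ := (2 / A : ℝ) * ∑ l ∈ Λ, Fj A (y - l / N)

lemma Fj_expand (A : ℕ) (hA : 0 < A) (x : ℝ) :
    (Fj A x : ℂ) = ∑ m ∈ Ioo (-(A : ℤ)) A, (hat 0 A m : ℂ) * ch (m * x) := by
  have hFj : (Fj A x : ℂ) =
      (∑ q ∈ (range A) ×ˢ (range A), ch (((q.1 : ℤ) - q.2 : ℤ) * x)) / A := by
    unfold Fj Dk
    push_cast
    congr 1
    rw [← Complex.mul_conj', map_sum, sum_mul_sum, sum_product]
    refine sum_congr rfl fun μ _ => sum_congr rfl fun μ' _ => ?_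
    rw [conj_ch, ← ch_add]
    congr 1
    ring
  rw [hFj]
  have hmaps : ∀ q ∈ (range A) ×ˢ (range A), (q.1 : ℤ) - q.2 ∈ Ioo (-(A : ℤ)) A := by
    intro q hq
    simp only [mem_product, mem_range] at hq
    rw [mem_Ioo]
    omega
  rw [← sum_fiberwise_of_maps_to hmaps, sum_div]
  refine sum_congr rfl fun m _ => ?_
  rw [hat_eq 0 A hA m]
  have : ∀ q ∈ ((range A) ×ˢ (range A)).filter (fun q : ℕ × ℕ => (q.1 : ℤ) - q.2 = m),
      ch (((q.1 : ℤ) - q.2 : ℤ) * x) = ch (m * x) := by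
    intro q hq
    rw [(mem_filter.1 hq).2]
  rw [sum_congr rfl this, sum_const, nsmul_eq_mul, sub_zero]
  push_cast
  ring

lemma sm_expand (A N : ℕ) (hA : 0 < A) (Λ : Finset ℤ) (y : ℝ) :
    (sm A N Λ y : ℂ) = ∑ m ∈ Ioo (-(A : ℤ)) A, cf A N Λ m * ch (m * y) := by
  unfold sm cf
  push_cast
  have h1 : ∀ l ∈ Λ, (Fj A (y - l / N) : ℂ) =
      ∑ m ∈ Ioo (-(A : ℤ)) A, (hat 0 A m : ℂ) * (ch (-((m : ℝ) * (l / N))) * ch (m * y)) := by
    intro l _
    rw [Fj_expand A hA]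
    refine sum_congr rfl fun m _ => ?_
    rw [← ch_add]
    congr 2
    ring
  rw [sum_congr rfl h1, sum_comm, mul_sum]
  refine sum_congr rfl fun m _ => ?_
  rw [← mul_sum, ← sum_mul]
  ring

lemma Dk_periodic (A : ℕ) (x : ℝ) (k : ℤ) : Dk A (x + k) = Dk A x := by
  unfold Dk
  refine sum_congr rfl fun μ _ => ?_
  have : (μ : ℝ) * (x + k) = μ * x + ((μ * k : ℤ) : ℝ) := by push_cast; ring
  rw [this, ch_add, ch_int, mul_one]

lemma Fj_periodic (A : ℕ) (x : ℝ) (k : ℤ) : Fj A (x + k) = Fj A x := by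
  unfold Fj; rw [Dk_periodic]

lemma sm_nonneg (A N : ℕ) (Λ : Finset ℤ) (y : ℝ) : 0 ≤ sm A N Λ y := by
  unfold sm
  have : ∀ l ∈ Λ, 0 ≤ Fj A (y - l / N) := fun l _ => Fj_nonneg _ _
  have := sum_nonneg this
  positivity

/-- upper bound of the smoothed indicator -/
lemma sm_le (A N : ℕ) (hA : 0 < A) (hAN : A ≤ N) (Λ : Finset ℤ)
    (hΛ : ∀ l ∈ Λ, ∀ l' ∈ Λ, (N : ℤ) ∣ l - l' → l = l') (y : ℝ) :
    sm A N Λ y ≤ 2 * N / A := by
  have hN : 0 < N := by omega
  have hN' : (N : ℝ) ≠ 0 := by positivity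
  have hNZ : (0 : ℤ) < N := by exact_mod_cast hN
  have h1 : ∀ l ∈ Λ, Fj A (y - l / N) = Fj A (y - ((l % N).toNat : ℝ) / N) := by
    intro l _
    have h2 : ((l % N).toNat : ℤ) = l % N := Int.toNat_of_nonneg (Int.emod_nonneg _ hNZ.ne')
    have h3 : (l : ℝ) = ((l % N).toNat : ℝ) + N * ((l / N : ℤ) : ℝ) := by
      have h4 : l = l % N + N * (l / N) := (Int.emod_add_mul_ediv l N).symm
      have h5 : (l : ℝ) = ((l % N + N * (l / N) : ℤ) : ℝ) := by rw [← h4]
      have h5' : (((l % N).toNat : ℕ) : ℝ) = ((l % N : ℤ) : ℝ) := by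
        rw [← Int.cast_natCast, h2]
      rw [h5, h5']; push_cast; ring
    have h6 : y - ((l % N).toNat : ℝ) / N = (y - l / N) + ((l / N : ℤ) : ℝ) := by
      rw [h3]; field_simp; ring
    rw [h6, Fj_periodic]
  unfold sm
  rw [sum_congr rfl h1]
  have hinj : Set.InjOn (fun l : ℤ => (l % N).toNat) (Λ : Set ℤ) := by
    intro l hl l' hl' h
    apply hΛ l hl l' hl'
    have h2 : ((l % N).toNat : ℤ) = l % N := Int.toNat_of_nonneg (Int.emod_nonneg _ hNZ.ne')
    have h3 : ((l' % N).toNat : ℤ) = l' % N := Int.toNat_of_nonneg (Int.emod_nonneg _ hNZ.ne')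
    have h4 : l % N = l' % N := by
      rw [← h2, ← h3]; exact_mod_cast h
    exact Int.ModEq.dvd (show l' ≡ l [ZMOD N] from h4.symm)
  have h2 : ∑ l ∈ Λ, Fj A (y - ((l % N).toNat : ℝ) / N) =
      ∑ z ∈ Λ.image (fun l : ℤ => (l % N).toNat), Fj A (y - (z : ℝ) / N) := by
    rw [sum_image hinj]
  rw [h2]
  have h3 : ∑ z ∈ Λ.image (fun l : ℤ => (l % N).toNat), Fj A (y - (z : ℝ) / N) ≤
      ∑ z ∈ range N, Fj A (y - (z : ℝ) / N) := by
    refine sum_le_sum_of_subset_of_nonneg ?_ fun z _ _ => Fj_nonneg _ _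
    intro z hz
    rw [mem_image] at hz
    obtain ⟨l, _, rfl⟩ := hz
    rw [mem_range]
    have := Int.emod_lt_of_pos l hNZ
    omega
  rw [sum_Fj N A hA hAN] at h3
  have hA' : (0:ℝ) < A := by exact_mod_cast hA
  calc _ ≤ (2 / A : ℝ) * N := by gcongr
    _ = _ := by ring

/-- lower bound near the points of `Λ / N` -/
lemma one_le_sm (A N : ℕ) (hA : 0 < A) (hAN : 8 * A ≤ N) (Λ : Finset ℤ) (y : ℝ) (l : ℤ)
    (hl : l ∈ Λ) (h0 : 0 ≤ y - l / N) (h1 : y - l / N ≤ 1 / N) : 1 ≤ sm A N Λ y := by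
  have hA' : (0:ℝ) < A := by exact_mod_cast hA
  have hN' : (0:ℝ) < N := by
    have : 0 < N := by omega
    exact_mod_cast this
  have hAN' : (8:ℝ) * A ≤ N := by exact_mod_cast hAN
  have h2 : A / 2 ≤ Fj A (y - l / N) := by
    set x := y - l / N with hx
    have h3 : ∀ μ ∈ range A, Real.sqrt 2 / 2 ≤ (ch (μ * x)).re := by
      intro μ hμ
      have hμ' : (μ : ℝ) ≤ A := by exact_mod_cast (mem_range.1 hμ).le
      have h4 : (ch (μ * x)).re = Real.cos (2 * Real.pi * (μ * x)) := by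
        unfold ch
        have : (2 * Real.pi * ((μ * x : ℝ) : ℂ) * Complex.I : ℂ) =
            ((2 * Real.pi * (μ * x) : ℝ) : ℂ) * Complex.I := by push_cast; ring
        rw [this, Complex.exp_ofReal_mul_I_re]
      rw [h4, ← Real.cos_pi_div_four]
      have h5 : (μ : ℝ) * x ≤ 1 / 8 := by
        have : (μ : ℝ) * x ≤ A * (1 / N) := by gcongr
        have h6 : (A : ℝ) * (1 / N) ≤ 1 / 8 := by
          rw [mul_one_div, div_le_div_iff₀ hN' (by norm_num)]; linarith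
        linarith
      have h7 : 0 ≤ (μ : ℝ) * x := by positivity
      apply Real.cos_le_cos_of_nonneg_of_le_pi
      · have := Real.pi_pos; positivity
      · have := Real.pi_pos; linarith
      · have := Real.pi_pos; nlinarith
    have h8 : A * (Real.sqrt 2 / 2) ≤ ‖Dk A x‖ := by
      refine le_trans ?_ (Complex.re_le_norm _)
      unfold Dk
      rw [Complex.re_sum]
      have := sum_le_sum h3
      rw [sum_const, card_range, nsmul_eq_mul] at this
      exact this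
    unfold Fj
    rw [div_le_div_iff₀ (by norm_num) hA']
    have h9 : (A * (Real.sqrt 2 / 2)) ^ 2 ≤ ‖Dk A x‖ ^ 2 := by gcongr
    have h10 : (A * (Real.sqrt 2 / 2)) ^ 2 = (A:ℝ) ^ 2 / 2 := by
      have := Real.sq_sqrt (show (0:ℝ) ≤ 2 by norm_num)
      rw [mul_pow, div_pow, this]; ring
    rw [h10] at h9
    nlinarith
  unfold sm
  have h3 : Fj A (y - l / N) ≤ ∑ l ∈ Λ, Fj A (y - l / N) :=
    single_le_sum (f := fun l : ℤ => Fj A (y - l / N)) (fun l _ => Fj_nonneg _ _) hl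
  calc (1:ℝ) = 2 / A * (A / 2) := by field_simp
    _ ≤ _ := by gcongr; exact h2.trans h3

lemma hat_nonneg (c : ℤ) (R : ℕ) (m : ℤ) : 0 ≤ hat c R m := le_max_left _ _

lemma hat_le_one (c : ℤ) (R : ℕ) (m : ℤ) : hat c R m ≤ 1 := by
  unfold hat
  apply max_le (by norm_num)
  have : 0 ≤ |(m : ℝ) - c| / R := by positivity
  linarith

lemma norm_cf_le (A N : ℕ) (Λ : Finset ℤ) (m : ℤ) : ‖cf A N Λ m‖ ≤ 2 / A * #Λ := by
  unfold cf
  rw [norm_mul, norm_mul]
  have h1 : ‖∑ l ∈ Λ, ch (-((m : ℝ) * (l / N)))‖ ≤ #Λ := by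
    refine (norm_sum_le _ _).trans ?_
    simp [norm_ch]
  have h2 : ‖((hat 0 A m : ℝ) : ℂ)‖ ≤ 1 := by
    rw [Complex.norm_real, Real.norm_eq_abs, abs_of_nonneg (hat_nonneg _ _ _)]
    exact hat_le_one _ _ _
  have h3 : ‖((2 / A : ℝ) : ℂ)‖ = 2 / A := by
    rw [Complex.norm_real, Real.norm_eq_abs, abs_of_nonneg (by positivity)]
  rw [h3]
  calc (2 / A : ℝ) * ‖((hat 0 A m : ℝ) : ℂ)‖ * ‖∑ l ∈ Λ, ch (-((m : ℝ) * (l / N)))‖
      ≤ (2 / A : ℝ) * 1 * #Λ := by gcongr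
    _ = _ := by ring

lemma cf_neg (A N : ℕ) (Λ : Finset ℤ) (m : ℤ) :
    cf A N Λ (-m) = (starRingEnd ℂ) (cf A N Λ m) := by
  unfold cf
  rw [map_mul, map_mul, Complex.conj_ofReal, Complex.conj_ofReal, map_sum]
  have h1 : hat 0 A (-m) = hat 0 A m := by
    unfold hat; push_cast; rw [sub_zero, sub_zero, abs_neg]
  rw [h1]
  congr 1
  refine sum_congr rfl fun l _ => ?_
  rw [conj_ch]
  congr 1
  push_cast
  ring

/-- `L²` bound of the coefficients -/
lemma sum_cf_sq (A N : ℕ) (hA : 0 < A) (Λ : Finset ℤ) (G : ℝ)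
    (hG : ∀ y, sm A N Λ y ≤ G) :
    ∑ m ∈ Ioo (-(A : ℤ)) A, ‖cf A N Λ m‖ ^ 2 ≤ G * (2 / A * #Λ) := by
  set N1 := 2 * A with hN1
  have hN1' : 0 < N1 := by omega
  have hN1r : (0:ℝ) < N1 := by exact_mod_cast hN1'
  have hS : ∀ m ∈ Ioo (-(A : ℤ)) A, ∀ m' ∈ Ioo (-(A : ℤ)) A, (N1 : ℤ) ∣ m - m' → m = m' := by
    intro m hm m' hm' h
    rw [mem_Ioo] at hm hm'
    have h1 : |m - m'| < N1 := by rw [abs_lt]; constructor <;> (push_cast [hN1]; omega)
    have := Int.eq_zero_of_abs_lt_dvd h h1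
    omega
  have h := parseval N1 hN1' _ hS (cf A N Λ)
  have h1 : ∀ z ∈ range N1, ‖∑ m ∈ Ioo (-(A : ℤ)) A, cf A N Λ m * ch ((m : ℝ) * z / N1)‖ ^ 2 ≤
      G * sm A N Λ (z / N1) := by
    intro z _
    have h2 := sm_expand A N hA Λ (z / N1)
    have h3 : ∑ m ∈ Ioo (-(A : ℤ)) A, cf A N Λ m * ch ((m : ℝ) * z / N1) =
        (sm A N Λ (z / N1) : ℂ) := by
      rw [h2]
      refine sum_congr rfl fun m _ => ?_
      congr 2; ring
    rw [h3, Complex.norm_real, Real.norm_eq_abs, abs_of_nonneg (sm_nonneg _ _ _ _), sq]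
    have := sm_nonneg A N Λ (z / N1)
    have := hG (z / N1)
    gcongr
  have h2 := sum_le_sum h1
  rw [h, ← mul_sum] at h2
  have h3 : ((∑ z ∈ range N1, sm A N Λ (z / N1) : ℝ) : ℂ) = ((N1 * (2 / A * #Λ) : ℝ) : ℂ) := by
    push_cast
    have h4 : ∀ z ∈ range N1, (sm A N Λ (z / N1) : ℂ) =
        ∑ m ∈ Ioo (-(A : ℤ)) A, cf A N Λ m * ch ((m : ℝ) * z / N1) := by
      intro z _
      rw [sm_expand A N hA]
      refine sum_congr rfl fun m _ => ?_
      congr 2; ring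
    rw [sum_congr rfl h4, sum_comm]
    have h5 : ∀ m ∈ Ioo (-(A : ℤ)) A,
        ∑ z ∈ range N1, cf A N Λ m * ch ((m : ℝ) * z / N1) =
        if m = 0 then (N1 : ℂ) * cf A N Λ 0 else 0 := by
      intro m hm
      rw [← mul_sum, sum_ch N1 hN1']
      by_cases hm0 : m = 0
      · subst hm0; simp [mul_comm]
      · rw [if_neg hm0, if_neg, mul_zero]
        intro hd
        apply hm0
        rw [mem_Ioo] at hm
        have h1 : |m| < N1 := by rw [abs_lt]; constructor <;> (push_cast [hN1]; omega)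
        exact Int.eq_zero_of_abs_lt_dvd hd h1
    rw [sum_congr rfl h5, sum_ite_eq' , if_pos (by rw [mem_Ioo]; constructor <;> omega)]
    congr 1
    unfold cf hat
    simp [ch_zero]
  have h3' : (∑ z ∈ range N1, sm A N Λ (z / N1) : ℝ) = N1 * (2 / A * #Λ) := by exact_mod_cast h3
  rw [h3'] at h2
  have h6 : (N1 : ℝ) * ∑ m ∈ Ioo (-(A : ℤ)) A, ‖cf A N Λ m‖ ^ 2 ≤ N1 * (G * (2 / A * #Λ)) := by
    linarith
  exact le_of_mul_le_mul_left h6 hN1r

/-- clamp function -/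
def cl (x : ℝ) : ℝ := min 1 (max 0 (2 - x))

lemma cl_identity (x : ℝ) :
    cl (x / 2) - cl x = max 0 (1 - |x - 2|) + 1 / 2 * max 0 (1 - |x - 3|) := by
  unfold cl
  rcases le_total x 1 with h | h
  · rw [max_eq_right (by linarith), max_eq_right (by linarith), min_eq_left (by linarith),
      min_eq_left (by linarith), abs_of_nonpos (by linarith), abs_of_nonpos (by linarith),
      max_eq_left (by linarith), max_eq_left (by linarith)]
    ring
  rcases le_total x 2 with h2 | h2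
  · rw [max_eq_right (by linarith), max_eq_right (by linarith), min_eq_left (by linarith),
      min_eq_right (by linarith), abs_of_nonpos (by linarith), abs_of_nonpos (by linarith),
      max_eq_right (by linarith), max_eq_left (by linarith)]
    ring
  rcases le_total x 3 with h3 | h3
  · rw [max_eq_right (by linarith), max_eq_left (by linarith : 2 - x ≤ 0),
      min_eq_right (by linarith), min_eq_right (by linarith), abs_of_nonneg (by linarith),
      abs_of_nonpos (by linarith), max_eq_right (by linarith), max_eq_right (by linarith)]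
    ring
  rcases le_total x 4 with h4 | h4
  · rw [max_eq_right (by linarith), max_eq_left (by linarith : 2 - x ≤ 0),
      min_eq_right (by linarith), min_eq_right (by linarith), abs_of_nonneg (by linarith),
      abs_of_nonneg (by linarith), max_eq_left (by linarith), max_eq_right (by linarith)]
    ring
  · rw [max_eq_left (by linarith), max_eq_left (by linarith : 2 - x ≤ 0),
      min_eq_right (by linarith), abs_of_nonneg (by linarith),
      abs_of_nonneg (by linarith), max_eq_left (by linarith), max_eq_left (by linarith)]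
    ring

/-- the dyadic window number `u` -/
def win (u : ℕ) (m : ℤ) : ℝ := hat (2 * 2 ^ u) (2 ^ u) m + 1 / 2 * hat (3 * 2 ^ u) (2 ^ u) m

lemma win_eq (u : ℕ) (m : ℤ) : win u m = cl (m / 2 ^ (u + 1)) - cl (m / 2 ^ u) := by
  have h := cl_identity (m / 2 ^ u)
  have e1 : (m : ℝ) / 2 ^ (u + 1) = m / 2 ^ u / 2 := by rw [pow_succ, div_div]
  rw [e1, h]
  unfold win hat
  have hp : (0:ℝ) < 2 ^ u := by positivity
  have e2 : |(m : ℝ) - ((2 * 2 ^ u : ℤ) : ℝ)| / ((2 ^ u : ℕ) : ℝ) = |(m : ℝ) / 2 ^ u - 2| := by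
    push_cast
    rw [← abs_of_pos hp, ← abs_div, abs_of_pos hp]
    congr 1
    field_simp
  have e3 : |(m : ℝ) - ((3 * 2 ^ u : ℤ) : ℝ)| / ((2 ^ u : ℕ) : ℝ) = |(m : ℝ) / 2 ^ u - 3| := by
    push_cast
    rw [← abs_of_pos hp, ← abs_div, abs_of_pos hp]
    congr 1
    field_simp
  rw [e2, e3]

lemma sum_win (r : ℕ) (m : ℤ) (h2 : 2 ≤ m) (hm : m ≤ 2 ^ r) : ∑ u ∈ range r, win u m = 1 := by
  have h1 : ∀ u ∈ range r, win u m = cl (m / 2 ^ (u + 1)) - cl (m / 2 ^ u) := fun u _ => win_eq u m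
  rw [sum_congr rfl h1, sum_range_sub (fun u => cl ((m:ℝ) / 2 ^ u)) r]
  have hm' : (m : ℝ) ≤ 2 ^ r := by exact_mod_cast hm
  have h2' : (2 : ℝ) ≤ m := by exact_mod_cast h2
  have e1 : (m : ℝ) / 2 ^ r ≤ 1 := by
    rw [div_le_one (by positivity)]; exact hm'
  unfold cl
  rw [pow_zero, div_one, max_eq_left (by linarith : 2 - (m:ℝ) ≤ 0), min_eq_left, min_eq_right]
  · ring
  · norm_num
  · exact le_max_of_le_right (by linarith)

lemma win_eq_zero (u : ℕ) (m : ℤ) (hm : m ≤ 2 ^ u) : win u m = 0 := by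
  rw [win_eq]
  have hm' : (m : ℝ) ≤ 2 ^ u := by exact_mod_cast hm
  have e1 : (m : ℝ) / 2 ^ u ≤ 1 := by
    rw [div_le_one (by positivity)]; exact hm'
  have e2 : (m : ℝ) / 2 ^ (u + 1) ≤ 1 := by
    rw [div_le_one (by positivity), pow_succ]
    have : (0:ℝ) < 2 ^ u := by positivity
    linarith
  unfold cl
  rw [min_eq_left, min_eq_left]
  · ring
  · exact le_max_of_le_right (by linarith)
  · exact le_max_of_le_right (by linarith)

lemma win_eq_zero' (u : ℕ) (m : ℤ) (hm : 4 * 2 ^ u ≤ m) : win u m = 0 := by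
  rw [win_eq]
  have hm' : (4 : ℝ) * 2 ^ u ≤ m := by exact_mod_cast hm
  have e1 : (4 : ℝ) ≤ (m : ℝ) / 2 ^ u := by
    rw [le_div_iff₀ (by positivity)]; exact hm'
  have e2 : (2 : ℝ) ≤ (m : ℝ) / 2 ^ (u + 1) := by
    rw [le_div_iff₀ (by positivity), pow_succ]; linarith
  unfold cl
  rw [max_eq_left (by linarith), max_eq_left (by linarith)]
  ring

lemma win_nonneg (u : ℕ) (m : ℤ) : 0 ≤ win u m := by
  unfold win
  have := hat_nonneg (2 * 2 ^ u) (2 ^ u) m
  have := hat_nonneg (3 * 2 ^ u) (2 ^ u) m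
  linarith

lemma cl_le_one (x : ℝ) : cl x ≤ 1 := min_le_left _ _
lemma cl_nonneg (x : ℝ) : 0 ≤ cl x := le_min (by norm_num) (le_max_left _ _)

lemma win_le_one (u : ℕ) (m : ℤ) : win u m ≤ 1 := by
  rw [win_eq]
  have := cl_le_one ((m:ℝ) / 2 ^ (u + 1))
  have := cl_nonneg ((m:ℝ) / 2 ^ u)
  linarith

end

end Pool.Agent.Helper28.FST
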