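import Pool.Agent.Helper28.FST.Smooth

/-!
# MP_795d31_lc, chapter FST: dyadic decomposition of the smoothed indicator
-/

set_option autoImplicit false

open Finset

namespace Pool.Agent.Helper28.FST

open Pool.Agent.Helper19.RP

noncomputable section

lemma cf_eq_zero (A N : ℕ) (hA : 0 < A) (Λ : Finset ℤ) (m : ℤ) (hm : (A : ℤ) ≤ |m|) :
    cf A N Λ m = 0 := by
  unfold cf
  have hA' : (0:ℝ) < A := by exact_mod_cast hA
  have h1 : hat 0 A m = 0 := by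
    unfold hat
    rw [max_eq_left]
    have h2 : (A : ℝ) ≤ |(m : ℝ)| := by exact_mod_cast hm
    have h3 : 1 ≤ |(m : ℝ) - ((0:ℤ):ℝ)| / A := by
      rw [le_div_iff₀ hA']; simpa using h2
    linarith
  rw [h1]; simp

/-- the dyadic piece number `u` -/
def pc (A N : ℕ) (Λ : Finset ℤ) (u : ℕ) (y : ℝ) : ℂ :=
  ∑ m ∈ Icc (2 ^ u : ℕ) (4 * 2 ^ u), (cf A N Λ m * (win u m : ℂ)) * ch (m * y)

lemma pc_eq (A N : ℕ) (hA : 0 < A) (Λ : Finset ℤ) (u : ℕ) (y : ℝ) :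
    pc A N Λ u y = ∑ m ∈ Ioo (-(A : ℤ)) A, (cf A N Λ m * (win u m : ℂ)) * ch (m * y) := by
  unfold pc
  have h1 : ∑ m ∈ Icc (2 ^ u : ℕ) (4 * 2 ^ u), (cf A N Λ m * (win u m : ℂ)) * ch (m * y) =
      ∑ m ∈ (Icc (2 ^ u : ℕ) (4 * 2 ^ u)).image (fun m : ℕ => (m : ℤ)),
        (cf A N Λ m * (win u m : ℂ)) * ch (m * y) := by
    rw [sum_image (fun a _ b _ h => Nat.cast_injective (R := ℤ) h)]
    simp
  rw [h1]
  set S := (Icc (2 ^ u : ℕ) (4 * 2 ^ u)).image (fun m : ℕ => (m : ℤ)) with hS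
  have h2 : ∑ m ∈ S, (cf A N Λ m * (win u m : ℂ)) * ch (m * y) =
      ∑ m ∈ S ∪ Ioo (-(A : ℤ)) A, (cf A N Λ m * (win u m : ℂ)) * ch (m * y) := by
    apply sum_subset subset_union_left
    intro m _ hm
    have : (win u m : ℂ) = 0 := by
      by_cases h3 : m ≤ 2 ^ u
      · rw [win_eq_zero u m h3]; simp
      by_cases h4 : 4 * 2 ^ u ≤ m
      · rw [win_eq_zero' u m h4]; simp
      exfalso
      apply hm
      rw [hS, mem_image]
      push Not at h3 h4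
      have h5 : 0 ≤ m := le_trans (by positivity) h3.le
      refine ⟨m.toNat, ?_, Int.toNat_of_nonneg h5⟩
      rw [mem_Icc]
      constructor
      · zify; rw [Int.toNat_of_nonneg h5]; exact h3.le
      · zify; rw [Int.toNat_of_nonneg h5]; exact h4.le
    rw [this]; ring
  have h3 : ∑ m ∈ Ioo (-(A : ℤ)) A, (cf A N Λ m * (win u m : ℂ)) * ch (m * y) =
      ∑ m ∈ S ∪ Ioo (-(A : ℤ)) A, (cf A N Λ m * (win u m : ℂ)) * ch (m * y) := by
    apply sum_subset subset_union_right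
    intro m _ hm
    rw [mem_Ioo, ← abs_lt, not_lt] at hm
    rw [cf_eq_zero A N hA Λ m hm]; ring
  rw [h2, h3]

lemma norm_sm_sum (A N : ℕ) (hA : 0 < A) (Λ : Finset ℤ) (G : ℝ) (hG : ∀ y, sm A N Λ y ≤ G)
    (y : ℝ) : ‖∑ m ∈ Ioo (-(A : ℤ)) A, cf A N Λ m * ch (m * y)‖ ≤ G := by
  rw [← sm_expand A N hA, Complex.norm_real, Real.norm_eq_abs, abs_of_nonneg (sm_nonneg _ _ _ _)]
  exact hG y

lemma pc_split (A N : ℕ) (hA : 0 < A) (Λ : Finset ℤ) (u : ℕ) (y : ℝ) :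
    pc A N Λ u y =
      ∑ m ∈ Ioo (-(A : ℤ)) A, cf A N Λ m * (hat (2 * 2 ^ u) (2 ^ u) m : ℂ) * ch (m * y) +
      1 / 2 * ∑ m ∈ Ioo (-(A : ℤ)) A, cf A N Λ m * (hat (3 * 2 ^ u) (2 ^ u) m : ℂ) * ch (m * y) := by
  rw [pc_eq A N hA, mul_sum, ← sum_add_distrib]
  refine sum_congr rfl fun m _ => ?_
  unfold win
  push_cast
  ring

lemma norm_pc_le (A N : ℕ) (hA : 0 < A) (Λ : Finset ℤ) (G : ℝ) (hG : ∀ y, sm A N Λ y ≤ G)
    (u : ℕ) (y : ℝ) : ‖pc A N Λ u y‖ ≤ 2 * G := by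
  have hG0 : 0 ≤ G := (sm_nonneg A N Λ 0).trans (hG 0)
  rw [pc_split A N hA]
  have h1 := hat_bound (Ioo (-(A : ℤ)) A) (cf A N Λ) (2 * 2 ^ u) (2 ^ u) (by positivity) G
    (norm_sm_sum A N hA Λ G hG) y
  have h2 := hat_bound (Ioo (-(A : ℤ)) A) (cf A N Λ) (3 * 2 ^ u) (2 ^ u) (by positivity) G
    (norm_sm_sum A N hA Λ G hG) y
  refine (norm_add_le _ _).trans ?_
  rw [norm_mul]
  have h3 : ‖(1 / 2 : ℂ)‖ = 1 / 2 := by norm_num
  rw [h3]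
  linarith

lemma pc_lip (A N : ℕ) (hA : 0 < A) (Λ : Finset ℤ) (G : ℝ) (hG : ∀ y, sm A N Λ y ≤ G)
    (u : ℕ) (y y' : ℝ) :
    ‖pc A N Λ u y - pc A N Λ u y'‖ ≤ 2 * G * (32 * 2 ^ u) * |y - y'| := by
  have hG0 : 0 ≤ G := (sm_nonneg A N Λ 0).trans (hG 0)
  rw [pc_split A N hA, pc_split A N hA]
  have h1 := hat_lip (Ioo (-(A : ℤ)) A) (cf A N Λ) (2 * 2 ^ u) (2 ^ u) (by positivity) G
    (norm_sm_sum A N hA Λ G hG) y y'
  have h2 := hat_lip (Ioo (-(A : ℤ)) A) (cf A N Λ) (3 * 2 ^ u) (2 ^ u) (by positivity) G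
    (norm_sm_sum A N hA Λ G hG) y y'
  set f1 := fun y : ℝ => ∑ m ∈ Ioo (-(A : ℤ)) A, cf A N Λ m * (hat (2 * 2 ^ u) (2 ^ u) m : ℂ) * ch (m * y)
  set f2 := fun y : ℝ => ∑ m ∈ Ioo (-(A : ℤ)) A, cf A N Λ m * (hat (3 * 2 ^ u) (2 ^ u) m : ℂ) * ch (m * y)
  have e : f1 y + 1 / 2 * f2 y - (f1 y' + 1 / 2 * f2 y') = (f1 y - f1 y') + 1 / 2 * (f2 y - f2 y') := by
    ring
  have goal : ‖f1 y + 1 / 2 * f2 y - (f1 y' + 1 / 2 * f2 y')‖ ≤ 2 * G * (32 * 2 ^ u) * |y - y'| := by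
    rw [e]
    refine (norm_add_le _ _).trans ?_
    rw [norm_mul]
    have h3 : ‖(1 / 2 : ℂ)‖ = 1 / 2 := by norm_num
    rw [h3]
    have h1' : ‖f1 y - f1 y'‖ ≤ G * (2 * Real.pi * |((2 * 2 ^ u : ℤ) : ℝ)| +
      4 * Real.pi * ((2 ^ u : ℕ) : ℝ)) * |y - y'| := h1
    have h2' : ‖f2 y - f2 y'‖ ≤ G * (2 * Real.pi * |((3 * 2 ^ u : ℤ) : ℝ)| +
      4 * Real.pi * ((2 ^ u : ℕ) : ℝ)) * |y - y'| := h2
    have a1 : |((2 * 2 ^ u : ℤ) : ℝ)| = 2 * 2 ^ u := by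
      push_cast; exact abs_of_nonneg (by positivity)
    have a2 : |((3 * 2 ^ u : ℤ) : ℝ)| = 3 * 2 ^ u := by
      push_cast; exact abs_of_nonneg (by positivity)
    rw [a1] at h1'
    rw [a2] at h2'
    push_cast at h1' h2'
    have hpi := Real.pi_lt_four
    have hpi0 := Real.pi_pos
    have hy := abs_nonneg (y - y')
    have b : G * (2 * Real.pi * (2 * 2 ^ u) + 4 * Real.pi * 2 ^ u) * |y - y'| +
        1 / 2 * (G * (2 * Real.pi * (3 * 2 ^ u) + 4 * Real.pi * 2 ^ u) * |y - y'|) =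
        (G * 2 ^ u * |y - y'|) * (13 * Real.pi) := by ring
    have b2 : 0 ≤ G * 2 ^ u * |y - y'| := by positivity
    have b3 : (G * 2 ^ u * |y - y'|) * (13 * Real.pi) ≤ (G * 2 ^ u * |y - y'|) * 64 := by
      apply mul_le_mul_of_nonneg_left _ b2
      have := Real.pi_lt_d2
      linarith
    calc _ ≤ G * (2 * Real.pi * (2 * 2 ^ u) + 4 * Real.pi * 2 ^ u) * |y - y'| +
        1 / 2 * (G * (2 * Real.pi * (3 * 2 ^ u) + 4 * Real.pi * 2 ^ u) * |y - y'|) := by gcongr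
      _ ≤ (G * 2 ^ u * |y - y'|) * 64 := by rw [b]; exact b3
      _ = _ := by ring
  exact goal

/-- high frequencies -/
def hi (A N : ℕ) (Λ : Finset ℤ) (y : ℝ) : ℂ :=
  ∑ m ∈ (Ioo (-(A : ℤ)) A).filter (fun m => 2 ≤ m), cf A N Λ m * ch (m * y)

lemma hi_eq (r N : ℕ) (Λ : Finset ℤ) (y : ℝ) :
    hi (2 ^ r) N Λ y = ∑ u ∈ range r, pc (2 ^ r) N Λ u y := by
  have hA : 0 < 2 ^ r := by positivity
  simp only [pc_eq _ _ hA]
  rw [sum_comm]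
  unfold hi
  rw [sum_filter]
  refine sum_congr rfl fun m hm => ?_
  rw [mem_Ioo] at hm
  have h1 : ∑ u ∈ range r, cf (2 ^ r) N Λ m * (win u m : ℂ) * ch (m * y) =
      cf (2 ^ r) N Λ m * ch (m * y) * ((∑ u ∈ range r, win u m : ℝ) : ℂ) := by
    push_cast
    rw [mul_sum]
    refine sum_congr rfl fun u _ => ?_
    ring
  rw [h1]
  split_ifs with h
  · rw [sum_win r m h]
    · simp
    · have := hm.2.le; push_cast at this; exact this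
  · have h2 : ∑ u ∈ range r, win u m = 0 := by
      apply sum_eq_zero
      intro u _
      apply win_eq_zero
      push Not at h
      have : (1:ℤ) ≤ 2 ^ u := one_le_pow₀ (by norm_num)
      omega
    rw [h2]; simp

lemma sm_split (A N : ℕ) (hA : 0 < A) (Λ : Finset ℤ) (y : ℝ) :
    ∃ low : ℂ, ‖low‖ ≤ 6 / A * #Λ ∧
      (sm A N Λ y : ℂ) = low + hi A N Λ y + (starRingEnd ℂ) (hi A N Λ y) := by
  refine ⟨∑ m ∈ (Ioo (-(A : ℤ)) A).filter (fun m => -1 ≤ m ∧ m ≤ 1), cf A N Λ m * ch (m * y), ?_, ?_⟩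
  · refine (norm_sum_le _ _).trans ?_
    have h1 : ∀ m ∈ (Ioo (-(A : ℤ)) A).filter (fun m => -1 ≤ m ∧ m ≤ 1),
        ‖cf A N Λ m * ch (m * y)‖ ≤ 2 / A * #Λ := by
      intro m _
      rw [norm_mul, norm_ch, mul_one]
      exact norm_cf_le A N Λ m
    refine (sum_le_sum h1).trans ?_
    rw [sum_const, nsmul_eq_mul]
    have h2 : #((Ioo (-(A : ℤ)) A).filter (fun m => -1 ≤ m ∧ m ≤ 1)) ≤ 3 := by
      have : (Ioo (-(A : ℤ)) A).filter (fun m => -1 ≤ m ∧ m ≤ 1) ⊆ Icc (-1 : ℤ) 1 := by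
        intro m hm
        rw [mem_filter] at hm
        rw [mem_Icc]; exact hm.2
      have h3 := card_le_card this
      simpa using h3
    have h2' : (#((Ioo (-(A : ℤ)) A).filter (fun m => -1 ≤ m ∧ m ≤ 1)) : ℝ) ≤ 3 := by
      exact_mod_cast h2
    calc _ ≤ 3 * (2 / (A : ℝ) * #Λ) := by gcongr
      _ = _ := by ring
  · rw [sm_expand A N hA]
    have hconj : (starRingEnd ℂ) (hi A N Λ y) =
        ∑ m ∈ (Ioo (-(A : ℤ)) A).filter (fun m => m ≤ -2), cf A N Λ m * ch (m * y) := by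
      unfold hi
      rw [map_sum]
      refine sum_bij' (fun m _ => -m) (fun m _ => -m) ?_ ?_ ?_ ?_ ?_
      · intro m hm
        rw [mem_filter, mem_Ioo] at hm ⊢
        omega
      · intro m hm
        rw [mem_filter, mem_Ioo] at hm ⊢
        omega
      · intro m _; simp
      · intro m _; simp
      · intro m _
        rw [map_mul, conj_ch, ← cf_neg]
        congr 2
        push_cast; ring
    rw [hconj]
    unfold hi
    have h1 : ∀ m ∈ Ioo (-(A : ℤ)) A, cf A N Λ m * ch (m * y) =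
        (if -1 ≤ m ∧ m ≤ 1 then cf A N Λ m * ch (m * y) else 0) +
        (if 2 ≤ m then cf A N Λ m * ch (m * y) else 0) +
        (if m ≤ -2 then cf A N Λ m * ch (m * y) else 0) := by
      intro m _
      by_cases a : 2 ≤ m
      · rw [if_neg (by omega), if_pos a, if_neg (by omega)]; ring
      by_cases b : m ≤ -2
      · rw [if_neg (by omega), if_neg a, if_pos b]; ring
      · rw [if_pos (by omega), if_neg a, if_neg b]; ring
    rw [sum_congr rfl h1, sum_add_distrib, sum_add_distrib, ← sum_filter, ← sum_filter, ← sum_filter]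

lemma sum_pc_sq (A N : ℕ) (hA : 0 < A) (Λ : Finset ℤ) (G : ℝ) (hG : ∀ y, sm A N Λ y ≤ G) (u : ℕ) :
    ∑ m ∈ Icc (2 ^ u : ℕ) (4 * 2 ^ u), ‖cf A N Λ m * (win u m : ℂ)‖ ^ 2 ≤ G * (2 / A * #Λ) := by
  refine le_trans ?_ (sum_cf_sq A N hA Λ G hG)
  have h1 : ∀ m ∈ Icc (2 ^ u : ℕ) (4 * 2 ^ u), ‖cf A N Λ m * (win u m : ℂ)‖ ^ 2 ≤
      ‖cf A N Λ m‖ ^ 2 := by
    intro m _
    rw [norm_mul, Complex.norm_real, Real.norm_eq_abs, abs_of_nonneg (win_nonneg _ _)]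
    have h2 := win_le_one u m
    have h3 := win_nonneg u m
    have h4 := norm_nonneg (cf A N Λ m)
    have : ‖cf A N Λ m‖ * win u m ≤ ‖cf A N Λ m‖ := by nlinarith
    gcongr
  refine (sum_le_sum h1).trans ?_
  have h2 : ∑ m ∈ Icc (2 ^ u : ℕ) (4 * 2 ^ u), ‖cf A N Λ (m : ℤ)‖ ^ 2 =
      ∑ m ∈ (Icc (2 ^ u : ℕ) (4 * 2 ^ u)).image (fun m : ℕ => (m : ℤ)), ‖cf A N Λ m‖ ^ 2 := by
    rw [sum_image (fun a _ b _ h => Nat.cast_injective (R := ℤ) h)]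
  rw [h2]
  have h3 : ∑ m ∈ ((Icc (2 ^ u : ℕ) (4 * 2 ^ u)).image (fun m : ℕ => (m : ℤ))).filter
      (fun m => m ∈ Ioo (-(A : ℤ)) A), ‖cf A N Λ m‖ ^ 2 =
      ∑ m ∈ (Icc (2 ^ u : ℕ) (4 * 2 ^ u)).image (fun m : ℕ => (m : ℤ)), ‖cf A N Λ m‖ ^ 2 := by
    apply sum_filter_of_ne
    intro m _ hne
    by_contra hm
    rw [mem_Ioo, ← abs_lt, not_lt] at hm
    rw [cf_eq_zero A N hA Λ m hm] at hne
    simp at hne
  rw [← h3]
  apply sum_le_sum_of_subset_of_nonneg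
  · intro m hm
    exact (mem_filter.1 hm).2
  · intro m _ _; positivity

end

end Pool.Agent.Helper28.FST
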